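import Mathlib

set_option autoImplicit false

open Finset

namespace Pool.Agent.CyclicIllum

/-- The point `(x, x^2, ..., x^d)` of the moment curve. -/
noncomputable def momentPoint (d : ℕ) (x : ℝ) : EuclideanSpace ℝ (Fin d) :=
  WithLp.toLp 2 (fun i => x ^ ((i : ℕ) + 1))

/-- The convex hull of the points of the moment curve with parameters `t 0, ..., t (n-1)`. -/
noncomputable def cyclicPolytope (d : ℕ) {n : ℕ} (t : Fin n → ℝ) :
    Set (EuclideanSpace ℝ (Fin d)) :=
  convexHull ℝ (Set.range fun j => momentPoint d (t j))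

/-- The direction `v` illuminates the point `q` of `K`: the open half-line from `q` in
direction `v` meets the interior of `K`. -/
def Illuminates {d : ℕ} (K : Set (EuclideanSpace ℝ (Fin d)))
    (v q : EuclideanSpace ℝ (Fin d)) : Prop :=
  ∃ s : ℝ, 0 < s ∧ q + s • v ∈ interior K

/-- Some `m` unit vectors illuminate all boundary points of `K`. -/
def IlluminableBy {d : ℕ} (K : Set (EuclideanSpace ℝ (Fin d))) (m : ℕ) : Prop :=
  ∃ v : Fin m → EuclideanSpace ℝ (Fin d),
    (∀ a, ‖v a‖ = 1) ∧ ∀ q ∈ frontier K, ∃ a, Illuminates K (v a) q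

/-- `1 / ∏ |t x - t y|`, the product over the elements `y ≠ x` of `U`. -/
noncomputable def weight {n : ℕ} (t : Fin n → ℝ) (U : Finset (Fin n)) (x : Fin n) : ℝ :=
  ∏ y ∈ U.erase x, |t x - t y|⁻¹

/-- `i < k` are linked: there is a set `S` of `d` indices outside `[i, k]` such that, with
`U = S ∪ {i, k}`, the sum of the weights of the elements of `S` is less than the sum of the
weights of `i` and `k`. -/
def Linked (d : ℕ) {n : ℕ} (t : Fin n → ℝ) (i k : Fin n) : Prop :=
  ∃ S : Finset (Fin n), S.card = d ∧ (∀ x ∈ S, x < i ∨ k < x) ∧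
    ∑ x ∈ S, weight t (insert i (insert k S)) x <
      weight t (insert i (insert k S)) i + weight t (insert i (insert k S)) k

/-- The indices can be cut into `m` (possibly empty) blocks of consecutive indices, given as the
fibres of a monotone map `f`, such that whenever `i < k` are the first and the last index of one
block, `i` and `k` are linked. -/
def BlockPartition (d : ℕ) {n : ℕ} (t : Fin n → ℝ) (m : ℕ) : Prop :=
  ∃ f : Fin n → Fin m, Monotone f ∧
    ∀ i k, i < k → f i = f k → (∀ j, f j = f i → i ≤ j ∧ j ≤ k) → Linked d t i k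

/-- The least number of blocks. -/
noncomputable def blockNumber (d : ℕ) {n : ℕ} (t : Fin n → ℝ) : ℕ :=
  sInf {m | BlockPartition d t m}

end Pool.Agent.CyclicIllum
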