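import Mathlib
import Pool.Agent.CyclicIllum.Defs

set_option autoImplicit false

open Finset

namespace Pool.Agent.CyclicIllum

variable {d n : ℕ} {t : Fin n → ℝ}

/-! ### convex hulls of families -/

lemma mem_cyclic_iff (y : EuclideanSpace ℝ (Fin d)) :
    y ∈ cyclicPolytope d t ↔
      ∃ w : Fin n → ℝ, (∀ j, 0 ≤ w j) ∧ ∑ j, w j = 1 ∧ ∑ j, w j • momentPoint d (t j) = y := by
  constructor
  · intro hy
    have hconv : Convex ℝ {y | ∃ w : Fin n → ℝ, (∀ j, 0 ≤ w j) ∧ ∑ j, w j = 1 ∧
        ∑ j, w j • momentPoint d (t j) = y} := by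
      rintro a ⟨w, hw0, hw1, rfl⟩ b ⟨w', hw0', hw1', rfl⟩ p q hp hq hpq
      refine ⟨fun j => p * w j + q * w' j, fun j => by have := hw0 j; have := hw0' j; positivity,
        ?_, ?_⟩
      · rw [Finset.sum_add_distrib, ← Finset.mul_sum, ← Finset.mul_sum, hw1, hw1']; simpa using hpq
      · simp only [add_smul, Finset.sum_add_distrib, Finset.smul_sum, mul_smul]
    refine convexHull_min ?_ hconv hy
    rintro _ ⟨j, rfl⟩
    refine ⟨fun l => if l = j then 1 else 0, fun l => by dsimp only; split_ifs <;> norm_num,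
      by simp, by simp⟩
  · rintro ⟨w, hw0, hw1, rfl⟩
    exact (convex_convexHull ℝ _).sum_mem (fun j _ => hw0 j) hw1
      (fun j _ => subset_convexHull ℝ _ ⟨j, rfl⟩)

/-- A linear relation between moment points, in terms of power sums. -/
lemma relation_pow (w : Fin n → ℝ) (h0 : ∑ j, w j = 0)
    (h1 : ∑ j, w j • momentPoint d (t j) = 0) :
    ∀ e ≤ d, ∑ j, w j * t j ^ e = 0 := by
  intro e he
  rcases Nat.eq_zero_or_pos e with rfl | hpos
  · simpa using h0
  · have hlt : e - 1 < d := by omega
    have := congrArg (fun v : EuclideanSpace ℝ (Fin d) => v ⟨e - 1, hlt⟩) h1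
    simp only [momentPoint, WithLp.ofLp_sum, WithLp.ofLp_smul, Finset.sum_apply, Pi.smul_apply,
      smul_eq_mul, WithLp.ofLp_zero, Pi.zero_apply] at this
    have e1 : e - 1 + 1 = e := by omega
    rw [e1] at this
    exact this

lemma relation_smul (w : Fin n → ℝ) (h : ∀ e ≤ d, ∑ j, w j * t j ^ e = 0) :
    ∑ j, w j • momentPoint d (t j) = 0 := by
  ext i
  have := h (i + 1) i.2
  simp only [momentPoint, WithLp.ofLp_sum, WithLp.ofLp_smul, Finset.sum_apply, Pi.smul_apply,
    smul_eq_mul, WithLp.ofLp_zero, Pi.zero_apply]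
  exact this

/-- A relation kills every polynomial of degree at most `d`. -/
lemma relation_eval (w : Fin n → ℝ) (h : ∀ e ≤ d, ∑ j, w j * t j ^ e = 0)
    (p : Polynomial ℝ) (hp : p.natDegree ≤ d) : ∑ j, w j * p.eval (t j) = 0 := by
  have : ∀ j, w j * p.eval (t j) = ∑ e ∈ Finset.range (d + 1), p.coeff e * (w j * t j ^ e) := by
    intro j
    rw [Polynomial.eval_eq_sum_range' (Nat.lt_succ_of_le hp), Finset.mul_sum]
    refine Finset.sum_congr rfl fun e _ => by ring
  simp_rw [this]
  rw [Finset.sum_comm]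
  refine Finset.sum_eq_zero fun e he => ?_
  rw [← Finset.mul_sum, h e (by simpa [Nat.lt_succ_iff] using he), mul_zero]

lemma functional_eval (f : EuclideanSpace ℝ (Fin d) →ₗ[ℝ] ℝ) (y : EuclideanSpace ℝ (Fin d)) :
    f y = ∑ i, y i * f (EuclideanSpace.single i 1) := by
  conv_lhs => rw [← (EuclideanSpace.basisFun (Fin d) ℝ).sum_repr y]
  simp [map_sum]

lemma interior_nonempty (hn : d + 1 ≤ n) (ht : Function.Injective t) :
    (interior (cyclicPolytope d t)).Nonempty := by
  have hn0 : 0 < n := by omega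
  unfold cyclicPolytope
  rw [interior_convexHull_nonempty_iff_affineSpan_eq_top]
  have hne : (Set.range fun j => momentPoint d (t j)).Nonempty := ⟨_, ⟨0, hn0⟩, rfl⟩
  rw [AffineSubspace.affineSpan_eq_top_iff_vectorSpan_eq_top_of_nonempty ℝ _ _ hne]
  by_contra hcon
  obtain ⟨f, hf0, hf⟩ := Submodule.exists_le_ker_of_lt_top _ (lt_top_iff_ne_top.mpr hcon)
  apply hf0
  have hconst : ∀ j, f (momentPoint d (t j)) = f (momentPoint d (t ⟨0, hn0⟩)) := by
    intro j
    have : momentPoint d (t j) -ᵥ momentPoint d (t ⟨0, hn0⟩) ∈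
        vectorSpan ℝ (Set.range fun j => momentPoint d (t j)) :=
      vsub_mem_vectorSpan ℝ ⟨j, rfl⟩ ⟨_, rfl⟩
    have h2 := hf this
    rw [LinearMap.mem_ker, vsub_eq_sub, map_sub, sub_eq_zero] at h2
    exact h2
  let p : Polynomial ℝ := ∑ i : Fin d, Polynomial.C (f (EuclideanSpace.single i 1)) *
      Polynomial.X ^ ((i : ℕ) + 1) - Polynomial.C (f (momentPoint d (t ⟨0, hn0⟩)))
  have hpdeg : p.degree < (Finset.univ : Finset (Fin n)).card := by
    rw [Finset.card_univ, Fintype.card_fin]
    refine lt_of_le_of_lt (?_ : p.degree ≤ (d : ℕ)) (by exact_mod_cast hn)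
    refine (Polynomial.degree_sub_le _ _).trans (max_le ?_ ?_)
    · refine (Polynomial.degree_sum_le _ _).trans (Finset.sup_le fun i _ => ?_)
      refine (Polynomial.degree_C_mul_X_pow_le _ _).trans ?_
      exact_mod_cast i.2
    · exact Polynomial.degree_C_le.trans (by exact_mod_cast Nat.zero_le d)
  have hp0 : p = 0 := by
    refine Polynomial.eq_zero_of_degree_lt_of_eval_index_eq_zero (v := t) (s := Finset.univ)
      ht.injOn hpdeg fun j _ => ?_
    simp only [p, Polynomial.eval_sub, Polynomial.eval_finsetSum, Polynomial.eval_mul,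
      Polynomial.eval_C, Polynomial.eval_pow, Polynomial.eval_X]
    have h1 := functional_eval f (momentPoint d (t j))
    rw [hconst j] at h1
    rw [h1, sub_eq_zero]
    refine Finset.sum_congr rfl fun i _ => ?_
    simp only [momentPoint]
    ring
  have hcoef : ∀ i : Fin d, f (EuclideanSpace.single i 1) = 0 := by
    intro i
    have h1 := congrArg (fun q => Polynomial.coeff q ((i : ℕ) + 1)) hp0
    simp only [p, Polynomial.coeff_sub, Polynomial.finsetSum_coeff, Polynomial.coeff_C_mul,
      Polynomial.coeff_X_pow, Polynomial.coeff_C, Polynomial.coeff_zero] at h1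
    rw [Finset.sum_eq_single i] at h1
    · simpa using h1
    · intro b _ hb
      rw [if_neg, mul_zero]
      intro h
      exact hb (Fin.ext (by omega))
    · simp
  ext y
  rw [functional_eval f y]
  simp [hcoef]

lemma interior_pos (hn0 : 0 < n) {y : EuclideanSpace ℝ (Fin d)}
    (hy : y ∈ interior (cyclicPolytope d t)) :
    ∃ w : Fin n → ℝ, (∀ j, 0 < w j) ∧ ∑ j, w j = 1 ∧ ∑ j, w j • momentPoint d (t j) = y := by
  set g : EuclideanSpace ℝ (Fin d) := ∑ j, ((n : ℝ)⁻¹) • momentPoint d (t j) with hg
  have hcont : Continuous fun s : ℝ => y + s • (y - g) := by fun_prop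
  have hmem : (0 : ℝ) ∈ (fun s : ℝ => y + s • (y - g)) ⁻¹' (interior (cyclicPolytope d t)) := by
    simpa using hy
  obtain ⟨ε, hε, hball⟩ := Metric.isOpen_iff.mp (isOpen_interior.preimage hcont) 0 hmem
  have hε2 : ε / 2 ∈ Metric.ball (0 : ℝ) ε := by
    rw [Metric.mem_ball, dist_zero_right, Real.norm_eq_abs, abs_of_pos (by linarith)]; linarith
  have h3 := interior_subset (hball hε2)
  obtain ⟨w, hw0, hw1, hw⟩ := (mem_cyclic_iff _).mp h3
  set e := ε / 2 with he
  have hepos : 0 < e := by positivity
  have hnpos : (0 : ℝ) < n := by exact_mod_cast hn0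
  refine ⟨fun j => (w j + e * (n : ℝ)⁻¹) / (1 + e), fun j => ?_, ?_, ?_⟩
  · have := hw0 j; positivity
  · rw [← Finset.sum_div, Finset.sum_add_distrib, hw1, Finset.sum_const, Finset.card_univ,
      Fintype.card_fin, nsmul_eq_mul]
    field_simp
  · have h4 : (1 + e) • ∑ j, ((w j + e * (n : ℝ)⁻¹) / (1 + e)) • momentPoint d (t j)
        = (1 + e) • y := by
      rw [Finset.smul_sum]
      have : ∀ j, (1 + e) • ((w j + e * (n : ℝ)⁻¹) / (1 + e)) • momentPoint d (t j)
          = w j • momentPoint d (t j) + e • ((n : ℝ)⁻¹ • momentPoint d (t j)) := by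
        intro j
        rw [smul_smul, smul_smul, ← add_smul]
        congr 1
        field_simp
      simp_rw [this]
      rw [Finset.sum_add_distrib, ← Finset.smul_sum, hw, ← hg]
      module
    have h5 : (1 + e) ≠ 0 := by positivity
    exact smul_right_injective _ h5 h4

lemma pos_interior (hn : d + 1 ≤ n) (ht : Function.Injective t) (w : Fin n → ℝ)
    (hw : ∀ j, 0 < w j) (hw1 : ∑ j, w j = 1) :
    ∑ j, w j • momentPoint d (t j) ∈ interior (cyclicPolytope d t) := by
  have hn0 : 0 < n := by omega
  obtain ⟨c, hc⟩ := interior_nonempty hn ht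
  obtain ⟨μ, hμ0, hμ1, hμ⟩ := (mem_cyclic_iff _).mp (interior_subset hc)
  have : (Finset.univ : Finset (Fin n)).Nonempty := ⟨⟨0, hn0⟩, Finset.mem_univ _⟩
  obtain ⟨j0, -, hj0⟩ := Finset.exists_min_image Finset.univ w this
  set e := min (w j0) 1 / 2 with he
  have hepos : 0 < e := by have := hw j0; positivity
  have he1 : e < 1 := by
    have : min (w j0) 1 ≤ 1 := min_le_right _ _
    linarith
  have hμle : ∀ j, μ j ≤ 1 := fun j => by
    rw [← hμ1]; exact Finset.single_le_sum (fun l _ => hμ0 l) (Finset.mem_univ j)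
  have hpos : ∀ j, 0 ≤ w j - e * μ j := by
    intro j
    have h1 := hj0 j (Finset.mem_univ j)
    have h2 : e ≤ w j0 := by
      have : min (w j0) 1 ≤ w j0 := min_le_left _ _
      have := hw j0
      linarith
    nlinarith [hμ0 j, hμle j]
  have h1e : (1 - e) ≠ 0 := by linarith
  have hy' : ∑ j, ((w j - e * μ j) / (1 - e)) • momentPoint d (t j) ∈ cyclicPolytope d t := by
    rw [mem_cyclic_iff]
    refine ⟨_, fun j => div_nonneg (hpos j) (by linarith), ?_, rfl⟩
    rw [← Finset.sum_div, Finset.sum_sub_distrib, ← Finset.mul_sum, hw1, hμ1, mul_one,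
      div_self h1e]
  have h := (convex_convexHull ℝ (Set.range fun j => momentPoint d (t j))).combo_interior_self_mem_interior
    (x := c) hc hy' hepos (sub_nonneg.mpr he1.le) (by ring)
  have heq : e • c + (1 - e) • ∑ j, ((w j - e * μ j) / (1 - e)) • momentPoint d (t j)
      = ∑ j, w j • momentPoint d (t j) := by
    rw [← hμ, Finset.smul_sum, Finset.smul_sum, ← Finset.sum_add_distrib]
    refine Finset.sum_congr rfl fun j _ => ?_
    rw [smul_smul, smul_smul, ← add_smul]
    congr 1
    field_simp
    ring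
  rw [heq] at h
  exact h

/-- Illumination of a vertex, in terms of weights. -/
lemma illuminates_iff (hn : d + 1 ≤ n) (ht : Function.Injective t)
    (v : EuclideanSpace ℝ (Fin d)) (i : Fin n) :
    Illuminates (cyclicPolytope d t) v (momentPoint d (t i)) ↔
      ∃ w : Fin n → ℝ, (∀ j, j ≠ i → 0 < w j) ∧ ∑ j, w j = 0 ∧
        ∑ j, w j • momentPoint d (t j) = v := by
  have hn0 : 0 < n := by omega
  constructor
  · rintro ⟨s, hs, hmem⟩
    obtain ⟨l, hl0, hl1, hl⟩ := interior_pos hn0 hmem
    refine ⟨fun j => (l j - if j = i then 1 else 0) / s, fun j hj => ?_, ?_, ?_⟩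
    · simp only [if_neg hj, sub_zero]
      exact div_pos (hl0 j) hs
    · rw [← Finset.sum_div, Finset.sum_sub_distrib, hl1]
      simp
    · have hsne : s ≠ 0 := hs.ne'
      apply smul_right_injective _ hsne
      simp only
      rw [Finset.smul_sum]
      have : ∀ j, s • ((l j - if j = i then 1 else 0) / s) • momentPoint d (t j)
          = l j • momentPoint d (t j) - (if j = i then (1 : ℝ) else 0) • momentPoint d (t j) := by
        intro j
        rw [smul_smul, ← sub_smul]
        congr 1
        field_simp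
      simp_rw [this]
      rw [Finset.sum_sub_distrib, hl]
      simp
  · rintro ⟨w, hw, hw0, rfl⟩
    set s := (1 + |w i|)⁻¹ with hsdef
    have hs : 0 < s := by positivity
    refine ⟨s, hs, ?_⟩
    have h := pos_interior hn ht (fun j => s * w j + if j = i then 1 else 0) (fun j => ?_) ?_
    · convert h using 1
      simp only [add_smul, mul_smul, Finset.sum_add_distrib, ← Finset.smul_sum]
      simp [add_comm]
    · by_cases hj : j = i
      · subst hj
        simp only [if_true]
        have h1 : |s * w j| < 1 := by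
          rw [abs_mul, abs_of_pos hs, hsdef, inv_mul_lt_iff₀ (by positivity)]
          linarith
        linarith [(abs_lt.mp h1).1]
      · simp only [if_neg hj, add_zero]
        exact mul_pos hs (hw j hj)
    · rw [Finset.sum_add_distrib, ← Finset.mul_sum, hw0]
      simp

/-! ### circuits -/

/-- The relation carried by the index set `U`. -/
noncomputable def circ (t : Fin n → ℝ) (U : Finset (Fin n)) (x : Fin n) : ℝ :=
  if x ∈ U then (∏ y ∈ U.erase x, (t x - t y))⁻¹ else 0

lemma circ_pow (ht : Function.Injective t) (U : Finset (Fin n)) (e : ℕ) (he : e + 2 ≤ U.card) :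
    ∑ x, circ t U x * t x ^ e = 0 := by
  have h := Lagrange.coeff_eq_sum (s := U) (v := t) ht.injOn (P := (Polynomial.X : Polynomial ℝ) ^ e)
    (by rw [Polynomial.degree_X_pow]; exact_mod_cast (by omega : e < U.card))
  rw [Polynomial.coeff_X_pow, if_neg (by omega)] at h
  have : ∑ x, circ t U x * t x ^ e =
      ∑ x ∈ U, (Polynomial.eval (t x) ((Polynomial.X : Polynomial ℝ) ^ e)) /
        ∏ j ∈ U.erase x, (t x - t j) := by
    rw [← Finset.sum_subset (Finset.subset_univ U)]
    · refine Finset.sum_congr rfl fun x hx => ?_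
      rw [circ, if_pos hx, Polynomial.eval_pow, Polynomial.eval_X]
      field_simp
    · intro x _ hx
      rw [circ, if_neg hx, zero_mul]
  rw [this, ← h]

lemma circ_ne_zero (ht : Function.Injective t) {U : Finset (Fin n)} {x : Fin n} (hx : x ∈ U) :
    circ t U x ≠ 0 := by
  rw [circ, if_pos hx]
  refine inv_ne_zero (Finset.prod_ne_zero_iff.mpr fun y hy => ?_)
  rw [sub_ne_zero]
  exact fun h => (Finset.ne_of_mem_erase hy) (ht h).symm

lemma abs_circ {U : Finset (Fin n)} {x : Fin n} (hx : x ∈ U) : |circ t U x| = weight t U x := by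
  rw [circ, if_pos hx, weight, abs_inv, Finset.abs_prod, Finset.prod_inv_distrib]

lemma weight_pos (ht : Function.Injective t) (U : Finset (Fin n)) (x : Fin n) :
    0 < weight t U x := by
  refine Finset.prod_pos fun y hy => ?_
  rw [inv_pos, abs_pos, sub_ne_zero]
  exact fun h => (Finset.ne_of_mem_erase hy) (ht h).symm

/-- A relation supported in `U` with `U.card ≤ d + 1` vanishes. -/
lemma relation_eq_zero (ht : Function.Injective t) (w : Fin n → ℝ)
    (h : ∀ e ≤ d, ∑ j, w j * t j ^ e = 0) (U : Finset (Fin n)) (hU : U.card ≤ d + 1)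
    (hsupp : ∀ x, x ∉ U → w x = 0) (x : Fin n) : w x = 0 := by
  by_cases hx : x ∈ U
  · have h1 := relation_eval w h (∏ y ∈ U.erase x, (Polynomial.X - Polynomial.C (t y))) (by
      refine (Polynomial.natDegree_prod_le _ _).trans ?_
      refine (Finset.sum_le_card_nsmul _ _ 1 fun y _ => ?_).trans ?_
      · exact (Polynomial.natDegree_X_sub_C _).le
      · rw [Finset.card_erase_of_mem hx]; simp; omega)
    rw [Finset.sum_eq_single x] at h1
    · rw [Polynomial.eval_prod] at h1
      refine (mul_eq_zero.mp h1).resolve_right (Finset.prod_ne_zero_iff.mpr fun y hy => ?_)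
      rw [Polynomial.eval_sub, Polynomial.eval_X, Polynomial.eval_C, sub_ne_zero]
      exact fun h => (Finset.ne_of_mem_erase hy) (ht h).symm
    · intro y _ hyx
      by_cases hy : y ∈ U
      · rw [Polynomial.eval_prod, Finset.prod_eq_zero (Finset.mem_erase.mpr ⟨hyx, hy⟩), mul_zero]
        simp
      · rw [hsupp y hy, zero_mul]
    · simp
  · exact hsupp x hx

/-- A relation supported in `U` with `U.card = d + 2` is a multiple of `circ t U`. -/
lemma relation_eq_circ (ht : Function.Injective t) (w : Fin n → ℝ)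
    (h : ∀ e ≤ d, ∑ j, w j * t j ^ e = 0) (U : Finset (Fin n)) (hU : U.card = d + 2)
    (hsupp : ∀ x, x ∉ U → w x = 0) : ∃ κ : ℝ, ∀ x, w x = κ * circ t U x := by
  obtain ⟨z, hz⟩ : U.Nonempty := Finset.card_pos.mp (by omega)
  refine ⟨w z / circ t U z, ?_⟩
  have hcz := circ_ne_zero ht hz
  intro x
  have key := relation_eq_zero ht (fun x => w x - w z / circ t U z * circ t U x) (d := d)
    (fun e he => ?_) (U.erase z) (by rw [Finset.card_erase_of_mem hz]; omega) (fun x hx => ?_) x
  · linarith
  · simp only [sub_mul, Finset.sum_sub_distrib, mul_assoc]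
    rw [h e he, ← Finset.mul_sum, circ_pow ht U e (by omega)]
    simp
  · rw [Finset.mem_erase, not_and_or, not_not] at hx
    rcases hx with rfl | hx
    · field_simp
      ring
    · have hc : circ t U x = 0 := if_neg hx
      rw [hsupp x hx, hc]; simp

/-- Adjacent elements of a circuit carry opposite signs. -/
lemma circ_mul_neg (ht : StrictMono t) {U : Finset (Fin n)} {i r : Fin n} (hi : i ∈ U)
    (hr : r ∈ U) (hir : i < r) (hadj : ∀ y ∈ U, y ≤ i ∨ r ≤ y) :
    circ t U i * circ t U r < 0 := by
  rw [circ, circ, if_pos hi, if_pos hr, ← mul_inv, inv_lt_zero]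
  have hr' : r ∈ U.erase i := Finset.mem_erase.mpr ⟨hir.ne', hr⟩
  have hi' : i ∈ U.erase r := Finset.mem_erase.mpr ⟨hir.ne, hi⟩
  rw [← Finset.mul_prod_erase _ _ hr', ← Finset.mul_prod_erase _ _ hi', Finset.erase_right_comm]
  have h1 : 0 < ∏ y ∈ (U.erase r).erase i, ((t i - t y) * (t r - t y)) := by
    refine Finset.prod_pos fun y hy => ?_
    have hyi : y ≠ i := Finset.ne_of_mem_erase hy
    have hyr : y ≠ r := Finset.ne_of_mem_erase (Finset.mem_of_mem_erase hy)
    have hyU : y ∈ U := Finset.mem_of_mem_erase (Finset.mem_of_mem_erase hy)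
    rcases hadj y hyU with h | h
    · have h2 := ht (lt_of_le_of_ne h hyi)
      have h3 := ht (lt_of_le_of_lt h hir)
      exact mul_pos (by linarith) (by linarith)
    · have h2 := ht (lt_of_le_of_ne h hyr.symm)
      have h3 := ht (lt_of_lt_of_le hir h)
      exact mul_pos_of_neg_of_neg (by linarith) (by linarith)
  rw [Finset.prod_mul_distrib] at h1
  have h2 := ht hir
  nlinarith [mul_pos (mul_pos (sub_pos.mpr h2) (sub_pos.mpr h2)) h1]

/-- Log-convexity of `x ↦ 1 / ∏ |x - f z|` on an interval avoiding the `f z`. -/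
lemma prod_inv_convex {ι : Type*} (Z : Finset ι) (f : ι → ℝ) {a b e : ℝ} (hab : a < b)
    (hbe : b < e) (hZ : ∀ z ∈ Z, f z < a ∨ e < f z) :
    (∏ z ∈ Z, |b - f z|⁻¹) * (e - a) ≤
      (∏ z ∈ Z, |a - f z|⁻¹) * (e - b) + (∏ z ∈ Z, |e - f z|⁻¹) * (b - a) := by
  have hae : 0 < e - a := by linarith
  set p := (e - b) / (e - a) with hp
  set q := (b - a) / (e - a) with hq
  have hp0 : 0 < p := div_pos (by linarith) hae
  have hq0 : 0 < q := div_pos (by linarith) hae
  have hpq : p + q = 1 := by rw [hp, hq, ← add_div]; field_simp; ring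
  have hbc : b = p * a + q * e := by rw [hp, hq]; field_simp; ring
  have hA : 0 < ∏ z ∈ Z, |a - f z|⁻¹ := Finset.prod_pos fun z hz => by
    rw [inv_pos, abs_pos]; rcases hZ z hz with h | h
    · exact (by linarith : (0:ℝ) < a - f z).ne'
    · exact (by linarith : a - f z < 0).ne
  have hE : 0 < ∏ z ∈ Z, |e - f z|⁻¹ := Finset.prod_pos fun z hz => by
    rw [inv_pos, abs_pos]; rcases hZ z hz with h | h
    · exact (by linarith : (0:ℝ) < e - f z).ne'
    · exact (by linarith : e - f z < 0).ne
  have h1 : ∏ z ∈ Z, |b - f z|⁻¹ ≤ (∏ z ∈ Z, |a - f z|⁻¹) ^ p * (∏ z ∈ Z, |e - f z|⁻¹) ^ q := by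
    rw [← Real.finsetProd_rpow _ _ (fun z _ => by positivity),
      ← Real.finsetProd_rpow _ _ (fun z _ => by positivity), ← Finset.prod_mul_distrib]
    refine Finset.prod_le_prod (fun z _ => by positivity) fun z hz => ?_
    have hb : |b - f z| = p * |a - f z| + q * |e - f z| := by
      rcases hZ z hz with h | h
      · rw [abs_of_pos (by linarith), abs_of_pos (by linarith), abs_of_pos (by linarith)]
        linear_combination hbc + f z * hpq
      · rw [abs_of_neg (by linarith), abs_of_neg (by linarith), abs_of_neg (by linarith)]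
        linear_combination -hbc - f z * hpq
    have hge := Real.geom_mean_le_arith_mean2_weighted hp0.le hq0.le (abs_nonneg (a - f z))
      (abs_nonneg (e - f z)) hpq
    rw [← hb] at hge
    have hapos : 0 < |a - f z| := by
      rw [abs_pos]; rcases hZ z hz with h | h
      · exact (by linarith : (0:ℝ) < a - f z).ne'
      · exact (by linarith : a - f z < 0).ne
    have hepos : 0 < |e - f z| := by
      rw [abs_pos]; rcases hZ z hz with h | h
      · exact (by linarith : (0:ℝ) < e - f z).ne'
      · exact (by linarith : e - f z < 0).ne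
    rw [Real.inv_rpow hapos.le, Real.inv_rpow hepos.le, ← mul_inv]
    exact inv_anti₀ (by positivity) hge
  have h2 := Real.geom_mean_le_arith_mean2_weighted hp0.le hq0.le hA.le hE.le hpq
  have h3 := h1.trans h2
  calc (∏ z ∈ Z, |b - f z|⁻¹) * (e - a)
      ≤ (p * (∏ z ∈ Z, |a - f z|⁻¹) + q * ∏ z ∈ Z, |e - f z|⁻¹) * (e - a) :=
        mul_le_mul_of_nonneg_right h3 hae.le
    _ = _ := by rw [hp, hq]; field_simp

/-- The weight of `i` is at most the sum of the weights of its two neighbours in `U`. -/
lemma weight_le_add (ht : StrictMono t) {U : Finset (Fin n)} {l i r : Fin n} (hl : l ∈ U)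
    (hi : i ∈ U) (hr : r ∈ U) (hli : l < i) (hir : i < r)
    (hadj : ∀ y ∈ U, y ≤ l ∨ y = i ∨ r ≤ y) :
    weight t U i ≤ weight t U l + weight t U r := by
  have hlr : l < r := hli.trans hir
  set Z := ((U.erase i).erase l).erase r with hZdef
  have hZ : ∀ z ∈ Z, t z < t l ∨ t r < t z := by
    intro z hz
    have hzr : z ≠ r := Finset.ne_of_mem_erase hz
    have hzl : z ≠ l := Finset.ne_of_mem_erase (Finset.mem_of_mem_erase hz)
    have hzi : z ≠ i := Finset.ne_of_mem_erase
      (Finset.mem_of_mem_erase (Finset.mem_of_mem_erase hz))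
    have hzU : z ∈ U := Finset.mem_of_mem_erase
      (Finset.mem_of_mem_erase (Finset.mem_of_mem_erase hz))
    rcases hadj z hzU with h | h | h
    · exact Or.inl (ht (lt_of_le_of_ne h hzl))
    · exact absurd h hzi
    · exact Or.inr (ht (lt_of_le_of_ne h hzr.symm))
  have h1 := prod_inv_convex Z t (ht hli) (ht hir) hZ
  have ei : weight t U i = |t i - t l|⁻¹ * (|t i - t r|⁻¹ * ∏ z ∈ Z, |t i - t z|⁻¹) := by
    rw [weight, ← Finset.mul_prod_erase (U.erase i) _ (Finset.mem_erase.mpr ⟨hli.ne, hl⟩),
      ← Finset.mul_prod_erase ((U.erase i).erase l) _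
        (Finset.mem_erase.mpr ⟨hlr.ne', Finset.mem_erase.mpr ⟨hir.ne', hr⟩⟩)]
  have el : weight t U l = |t l - t i|⁻¹ * (|t l - t r|⁻¹ * ∏ z ∈ Z, |t l - t z|⁻¹) := by
    rw [weight, ← Finset.mul_prod_erase (U.erase l) _ (Finset.mem_erase.mpr ⟨hli.ne', hi⟩),
      ← Finset.mul_prod_erase ((U.erase l).erase i) _
        (Finset.mem_erase.mpr ⟨hir.ne', Finset.mem_erase.mpr ⟨hlr.ne', hr⟩⟩),
      Finset.erase_right_comm (a := l) (b := i)]
  have er : weight t U r = |t r - t i|⁻¹ * (|t r - t l|⁻¹ * ∏ z ∈ Z, |t r - t z|⁻¹) := by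
    rw [weight, ← Finset.mul_prod_erase (U.erase r) _ (Finset.mem_erase.mpr ⟨hir.ne, hi⟩),
      ← Finset.mul_prod_erase ((U.erase r).erase i) _
        (Finset.mem_erase.mpr ⟨hli.ne, Finset.mem_erase.mpr ⟨hlr.ne, hl⟩⟩),
      Finset.erase_right_comm (a := r) (b := i), Finset.erase_right_comm (a := r) (b := l)]
  have h2 := ht hli
  have h3 := ht hir
  rw [ei, el, er, abs_of_pos (sub_pos.mpr h2), abs_of_neg (sub_neg.mpr h3),
    abs_of_neg (sub_neg.mpr h2), abs_of_neg (sub_neg.mpr (h2.trans h3)),
    abs_of_pos (sub_pos.mpr h3), abs_of_pos (sub_pos.mpr (h2.trans h3))]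
  set A := ∏ z ∈ Z, |t l - t z|⁻¹
  set B := ∏ z ∈ Z, |t i - t z|⁻¹
  set C := ∏ z ∈ Z, |t r - t z|⁻¹
  have e1 : 0 < t i - t l := by linarith
  have e2 : 0 < t r - t i := by linarith
  have e3 : 0 < t r - t l := by linarith
  have n1 : -(t i - t r) = t r - t i := by ring
  have n2 : -(t l - t i) = t i - t l := by ring
  have n3 : -(t l - t r) = t r - t l := by ring
  rw [n1, n2, n3]
  have key : (t i - t l)⁻¹ * ((t r - t l)⁻¹ * A) + (t r - t i)⁻¹ * ((t r - t l)⁻¹ * C)
      - (t i - t l)⁻¹ * ((t r - t i)⁻¹ * B) =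
      ((t i - t l) * (t r - t i) * (t r - t l))⁻¹ *
        (A * (t r - t i) + C * (t i - t l) - B * (t r - t l)) := by
    field_simp
  have h4 : 0 ≤ ((t i - t l) * (t r - t i) * (t r - t l))⁻¹ *
        (A * (t r - t i) + C * (t i - t l) - B * (t r - t l)) :=
    mul_nonneg (by positivity) (by linarith)
  linarith

/-- The weight of the least element of `U` is at most that of the next one. -/
lemma weight_le_next (ht : StrictMono t) {U : Finset (Fin n)} {i r : Fin n}
    (hi : i ∈ U) (hr : r ∈ U) (hir : i < r) (hadj : ∀ y ∈ U, y = i ∨ r ≤ y) :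
    weight t U i ≤ weight t U r := by
  have ei : weight t U i = |t i - t r|⁻¹ * ∏ z ∈ (U.erase i).erase r, |t i - t z|⁻¹ := by
    rw [weight, ← Finset.mul_prod_erase (U.erase i) _ (Finset.mem_erase.mpr ⟨hir.ne', hr⟩)]
  have er : weight t U r = |t r - t i|⁻¹ * ∏ z ∈ (U.erase i).erase r, |t r - t z|⁻¹ := by
    rw [weight, ← Finset.mul_prod_erase (U.erase r) _ (Finset.mem_erase.mpr ⟨hir.ne, hi⟩),
      Finset.erase_right_comm (a := r) (b := i)]
  rw [ei, er, abs_sub_comm (t r) (t i)]
  refine mul_le_mul_of_nonneg_left ?_ (by positivity)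
  refine Finset.prod_le_prod (fun z _ => by positivity) fun z hz => ?_
  have hzr : z ≠ r := Finset.ne_of_mem_erase hz
  have hzi : z ≠ i := Finset.ne_of_mem_erase (Finset.mem_of_mem_erase hz)
  have hzU : z ∈ U := Finset.mem_of_mem_erase (Finset.mem_of_mem_erase hz)
  have hrz : r < z := lt_of_le_of_ne ((hadj z hzU).resolve_left hzi) hzr.symm
  have h1 := ht hrz
  have h2 := ht hir
  rw [abs_of_neg (by linarith), abs_of_neg (by linarith)]
  exact inv_anti₀ (by linarith) (by linarith)

/-! ### reduction of a relation to a circuit -/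

/-- Indices other than `i, k` in the support of `w`. -/
noncomputable def supp (i k : Fin n) (w : Fin n → ℝ) : Finset (Fin n) :=
  ((Finset.univ.erase i).erase k).filter fun x => w x ≠ 0

/-- The total absolute weight outside `i, k` is less than `w i - w k`. -/
def Gap (i k : Fin n) (w : Fin n → ℝ) : Prop :=
  ∑ x ∈ (Finset.univ.erase i).erase k, |w x| < w i - w k

lemma mem_supp {i k x : Fin n} {w : Fin n → ℝ} :
    x ∈ supp i k w ↔ x ≠ k ∧ x ≠ i ∧ w x ≠ 0 := by
  simp [supp, and_assoc]

lemma reduce_core {i k : Fin n} (w σ : Fin n → ℝ)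
    (hw : ∀ e ≤ d, ∑ j, w j * t j ^ e = 0) (hσ : ∀ e ≤ d, ∑ j, σ j * t j ^ e = 0)
    (hgap : Gap i k w) (A : Finset (Fin n)) (hA : A ⊆ supp i k w) (hik : i ≠ k)
    (hsupp : ∀ x, x ≠ i → x ∉ A → σ x = 0)
    (hD : σ i ≤ ∑ x ∈ A, σ x * w x / |w x|) (hex : ∃ x ∈ A, 0 < σ x * w x) :
    ∃ w' : Fin n → ℝ, (∀ e ≤ d, ∑ j, w' j * t j ^ e = 0) ∧ Gap i k w' ∧
      (supp i k w').card < (supp i k w).card := by
  obtain ⟨x0, hx0A, hx0⟩ := hex
  have hPne : (A.filter fun x => 0 < σ x * w x).Nonempty :=
    ⟨x0, Finset.mem_filter.mpr ⟨hx0A, hx0⟩⟩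
  obtain ⟨y, hyP, hy⟩ := Finset.exists_min_image _ (fun x => w x / σ x) hPne
  rw [Finset.mem_filter] at hyP
  obtain ⟨hyA, hy0⟩ := hyP
  set s := w y / σ y with hs
  have hσy : σ y ≠ 0 := fun h => by simp [h] at hy0
  have hspos : 0 < s := by
    rw [hs, div_eq_mul_inv]
    have : 0 < σ y * w y * ((σ y)⁻¹ * (σ y)⁻¹) :=
      mul_pos hy0 (mul_self_pos.mpr (inv_ne_zero hσy))
    have e : σ y * w y * ((σ y)⁻¹ * (σ y)⁻¹) = w y * (σ y)⁻¹ := by field_simp
    rwa [e] at this
  have hwne : ∀ x ∈ A, w x ≠ 0 := fun x hx => (mem_supp.mp (hA hx)).2.2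
  have habs : ∀ x ∈ A, |w x - s * σ x| = |w x| - s * (σ x * w x / |w x|) := by
    intro x hx
    have hwx := hwne x hx
    have hwpos : 0 < |w x| := abs_pos.mpr hwx
    have hprod : 0 ≤ (w x - s * σ x) * w x := by
      by_cases h : 0 < σ x * w x
      · have h1 := hy x (Finset.mem_filter.mpr ⟨hx, h⟩)
        have hσx : σ x ≠ 0 := fun h' => by simp [h'] at h
        have h2 : s * (σ x * w x) ≤ w x / σ x * (σ x * w x) :=
          mul_le_mul_of_nonneg_right h1 h.le
        have h3 : w x / σ x * (σ x * w x) = w x * w x := by field_simp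
        nlinarith
      · push Not at h
        nlinarith [mul_self_nonneg (w x)]
    have h1 : |w x - s * σ x| * |w x| = (w x - s * σ x) * w x := by
      rw [← abs_mul, abs_of_nonneg hprod]
    have h2 : w x * w x = |w x| * |w x| := (abs_mul_abs_self _).symm
    field_simp
    nlinarith
  refine ⟨fun x => w x - s * σ x, fun e he => ?_, ?_, ?_⟩
  · simp only [sub_mul, Finset.sum_sub_distrib, mul_assoc]
    rw [hw e he, ← Finset.mul_sum, hσ e he]; simp
  · have hσk : σ k = 0 := hsupp k hik.symm fun hk => (mem_supp.mp (hA hk)).1 rfl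
    have hAE : A ⊆ (Finset.univ.erase i).erase k := fun x hx => by
      have := mem_supp.mp (hA hx)
      simp [this.1, this.2.1]
    unfold Gap at hgap ⊢
    have h1 : ∑ x ∈ (Finset.univ.erase i).erase k, |w x - s * σ x| =
        ∑ x ∈ (Finset.univ.erase i).erase k, |w x| - s * ∑ x ∈ A, σ x * w x / |w x| := by
      rw [← Finset.sum_sdiff hAE, ← Finset.sum_sdiff (f := fun x => |w x|) hAE, Finset.mul_sum,
        add_sub_assoc, ← Finset.sum_sub_distrib]
      congr 1
      · refine Finset.sum_congr rfl fun x hx => ?_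
        rw [Finset.mem_sdiff] at hx
        have hxi : x ≠ i := Finset.ne_of_mem_erase (Finset.mem_of_mem_erase hx.1)
        rw [hsupp x hxi hx.2]; simp
      · exact Finset.sum_congr rfl fun x hx => habs x hx
    have h2 := mul_le_mul_of_nonneg_left hD hspos.le
    refine lt_of_eq_of_lt h1 (?_ : _ < (w i - s * σ i) - (w k - s * σ k))
    rw [hσk]
    linarith
  · refine Finset.card_lt_card ⟨fun x hx => ?_, fun h => ?_⟩
    · rw [mem_supp] at hx ⊢
      refine ⟨hx.1, hx.2.1, fun h0 => ?_⟩
      by_cases hxA : x ∈ A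
      · exact hwne x hxA h0
      · apply hx.2.2
        rw [h0, hsupp x hx.2.1 hxA]; simp
    · have h1 := h (hA hyA)
      rw [mem_supp] at h1
      apply h1.2.2
      rw [hs]; field_simp; simp

lemma reduce_step (ht : Function.Injective t) {i k : Fin n} (hik : i ≠ k) (w : Fin n → ℝ)
    (hw : ∀ e ≤ d, ∑ j, w j * t j ^ e = 0) (hgap : Gap i k w) (hcard : d < (supp i k w).card) :
    ∃ w' : Fin n → ℝ, (∀ e ≤ d, ∑ j, w' j * t j ^ e = 0) ∧ Gap i k w' ∧
      (supp i k w').card < (supp i k w).card := by
  obtain ⟨A, hA, hAcard⟩ := Finset.exists_subset_card_eq (Nat.succ_le_of_lt hcard)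
  have hiA : i ∉ A := fun h => (mem_supp.mp (hA h)).2.1 rfl
  have hUcard : (insert i A).card = d + 2 := by rw [Finset.card_insert_of_notMem hiA, hAcard]
  set σ := circ t (insert i A) with hσdef
  have hσ : ∀ e ≤ d, ∑ j, σ j * t j ^ e = 0 := fun e he => circ_pow ht _ e (by omega)
  have hσsupp : ∀ x, x ≠ i → x ∉ A → σ x = 0 := fun x hxi hxA => by
    rw [hσdef, circ, if_neg]
    rw [Finset.mem_insert]; tauto
  have hσne : ∀ x ∈ A, σ x ≠ 0 := fun x hx =>
    circ_ne_zero ht (Finset.mem_insert_of_mem hx)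
  have hwne : ∀ x ∈ A, w x ≠ 0 := fun x hx => (mem_supp.mp (hA hx)).2.2
  have hsum : σ i + ∑ x ∈ A, σ x = 0 := by
    have h := hσ 0 (Nat.zero_le _)
    simp only [pow_zero, mul_one] at h
    rw [← Finset.sum_insert hiA, ← h]
    refine Finset.sum_subset (Finset.subset_univ _) fun x _ hx => ?_
    rw [Finset.mem_insert, not_or] at hx
    exact hσsupp x hx.1 hx.2
  have hle : |σ i| ≤ ∑ x ∈ A, |σ x| := by
    have : σ i = - ∑ x ∈ A, σ x := by linarith
    rw [this, abs_neg]
    exact Finset.abs_sum_le_sum_abs _ _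
  have hAne : A.Nonempty := Finset.card_pos.mp (by omega)
  have tpos : ∀ x ∈ A, 0 < σ x * w x → σ x * w x / |w x| = |σ x| := by
    intro x hx h
    have hwpos : 0 < |w x| := abs_pos.mpr (hwne x hx)
    rw [div_eq_iff hwpos.ne', ← abs_mul, abs_of_pos h]
  have tneg : ∀ x ∈ A, σ x * w x < 0 → σ x * w x / |w x| = -|σ x| := by
    intro x hx h
    have hwpos : 0 < |w x| := abs_pos.mpr (hwne x hx)
    rw [div_eq_iff hwpos.ne', neg_mul, ← abs_mul, abs_of_neg h, neg_neg]
  by_cases hcase : σ i ≤ ∑ x ∈ A, σ x * w x / |w x| ∧ ∃ x ∈ A, 0 < σ x * w x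
  · exact reduce_core w σ hw hσ hgap A hA hik hσsupp hcase.1 hcase.2
  · refine reduce_core w (fun x => - σ x) hw (fun e he => ?_) hgap A hA hik
      (fun x h1 h2 => by simp [hσsupp x h1 h2]) ?_ ?_
    · simp only [neg_mul, Finset.sum_neg_distrib, hσ e he, neg_zero]
    · simp only [neg_mul, neg_div, Finset.sum_neg_distrib]
      rw [neg_le_neg_iff]
      by_contra hlt
      push Not at hlt
      have hex : ∀ x ∈ A, σ x * w x < 0 := by
        intro x hx
        by_contra h
        push Not at h
        exact hcase ⟨hlt.le, x, hx, lt_of_le_of_ne h (mul_ne_zero (hσne x hx) (hwne x hx)).symm⟩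
      have : ∑ x ∈ A, σ x * w x / |w x| = - ∑ x ∈ A, |σ x| := by
        rw [← Finset.sum_neg_distrib]
        exact Finset.sum_congr rfl fun x hx => tneg x hx (hex x hx)
      rw [this] at hlt
      linarith [neg_abs_le (σ i)]
    · by_contra hno
      push Not at hno
      have hex : ∀ x ∈ A, 0 < σ x * w x := by
        intro x hx
        have := hno x hx
        exact lt_of_le_of_ne (by linarith) (mul_ne_zero (hσne x hx) (hwne x hx)).symm
      apply hcase
      have : ∑ x ∈ A, σ x * w x / |w x| = ∑ x ∈ A, |σ x| :=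
        Finset.sum_congr rfl fun x hx => tpos x hx (hex x hx)
      obtain ⟨x, hx⟩ := hAne
      refine ⟨?_, x, hx, hex x hx⟩
      rw [this]
      exact (le_abs_self _).trans hle

lemma reduce (ht : Function.Injective t) {i k : Fin n} (hik : i ≠ k) (w : Fin n → ℝ)
    (hw : ∀ e ≤ d, ∑ j, w j * t j ^ e = 0) (hgap : Gap i k w) :
    ∃ w' : Fin n → ℝ, (∀ e ≤ d, ∑ j, w' j * t j ^ e = 0) ∧ Gap i k w' ∧
      (supp i k w').card ≤ d := by
  induction hm : (supp i k w).card using Nat.strong_induction_on generalizing w with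
  | _ m ih =>
    by_cases h : (supp i k w).card ≤ d
    · exact ⟨w, hw, hgap, h⟩
    · obtain ⟨w', h1, h2, h3⟩ := reduce_step ht hik w hw hgap (by omega)
      exact ih _ (by omega) w' h1 h2 rfl

/-- A relation with a gap forces the two indices to be linked. -/
lemma linked_of_gap (ht : StrictMono t) {i k : Fin n} (hik : i < k) (w : Fin n → ℝ)
    (hw : ∀ e ≤ d, ∑ j, w j * t j ^ e = 0) (hgap : Gap i k w) : Linked d t i k := by
  obtain ⟨w, hw, hgap, hcard⟩ := reduce ht.injective hik.ne w hw hgap
  set S := supp i k w with hS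
  have hiS : i ∉ S := fun h => (mem_supp.mp h).2.1 rfl
  have hkS : k ∉ S := fun h => (mem_supp.mp h).1 rfl
  have hikS : i ∉ insert k S := by
    rw [Finset.mem_insert, not_or]; exact ⟨hik.ne, hiS⟩
  set U := insert i (insert k S) with hU
  have hsupp : ∀ x, x ∉ U → w x = 0 := by
    intro x hx
    rw [hU, Finset.mem_insert, Finset.mem_insert, not_or, not_or] at hx
    by_contra h
    exact hx.2.2 (mem_supp.mpr ⟨hx.2.1, hx.1, h⟩)
  have hUcard : U.card = S.card + 2 := by
    rw [hU, Finset.card_insert_of_notMem hikS, Finset.card_insert_of_notMem hkS]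
  have hgap' := hgap
  unfold Gap at hgap
  have hnn : 0 ≤ ∑ x ∈ (Finset.univ.erase i).erase k, |w x| :=
    Finset.sum_nonneg fun _ _ => abs_nonneg _
  have hScard : S.card = d := by
    by_contra hne
    have h0 := relation_eq_zero ht.injective w hw U (by omega) hsupp
    rw [h0 i, h0 k] at hgap
    linarith
  obtain ⟨κ, hκ⟩ := relation_eq_circ ht.injective w hw U (by omega) hsupp
  have hiU : i ∈ U := Finset.mem_insert_self _ _
  have hkU : k ∈ U := Finset.mem_insert_of_mem (Finset.mem_insert_self _ _)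
  have hSU : ∀ x ∈ S, x ∈ U := fun x hx =>
    Finset.mem_insert_of_mem (Finset.mem_insert_of_mem hx)
  have hκ0 : κ ≠ 0 := by
    rintro rfl
    rw [hκ i, hκ k] at hgap
    linarith
  have hκpos : 0 < |κ| := abs_pos.mpr hκ0
  have hSE : S ⊆ (Finset.univ.erase i).erase k := Finset.filter_subset _ _
  have hgapS : ∑ x ∈ S, |w x| < w i - w k := by
    refine lt_of_le_of_lt (le_of_eq ?_) hgap
    refine Finset.sum_subset hSE fun x hx hxS => ?_
    have hxi : x ≠ i := Finset.ne_of_mem_erase (Finset.mem_of_mem_erase hx)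
    have hxk : x ≠ k := Finset.ne_of_mem_erase hx
    have : w x = 0 := by
      by_contra h
      exact hxS (mem_supp.mpr ⟨hxk, hxi, h⟩)
    rw [this, abs_zero]
  have habs : ∀ x ∈ U, |w x| = |κ| * weight t U x := fun x hx => by
    rw [hκ x, abs_mul, abs_circ hx]
  have hsum : w i + w k + ∑ x ∈ S, w x = 0 := by
    have h := hw 0 (Nat.zero_le _)
    simp only [pow_zero, mul_one] at h
    have h2 : ∑ x ∈ U, w x = 0 := by
      rw [← h]
      exact Finset.sum_subset (Finset.subset_univ _) fun x _ hx => hsupp x hx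
    rw [hU, Finset.sum_insert hikS, Finset.sum_insert hkS] at h2
    linarith
  -- signs of `w i` and `w k`, and domination
  have hneg : ∑ x ∈ S.filter (fun x => w x < 0), |w x| < w i := by
    have h1 : ∑ x ∈ S, (|w x| - w x) / 2 = ∑ x ∈ S.filter (fun x => w x < 0), |w x| := by
      rw [Finset.sum_filter]
      refine Finset.sum_congr rfl fun x _ => ?_
      split_ifs with h
      · rw [abs_of_neg h]; ring
      · rw [abs_of_nonneg (not_lt.mp h)]; ring
    rw [← h1, ← Finset.sum_div, Finset.sum_sub_distrib]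
    linarith
  have hwi : 0 < w i := lt_of_le_of_lt (Finset.sum_nonneg fun _ _ => abs_nonneg _) hneg
  have hopp : ∀ x ∈ U, circ t U i * circ t U x < 0 → w x < 0 := by
    intro x hx h
    have h1 : w i * w x = κ * κ * (circ t U i * circ t U x) := by rw [hκ i, hκ x]; ring
    have h2 : w i * w x < 0 := by
      rw [h1]; exact mul_neg_of_pos_of_neg (mul_self_pos.mpr hκ0) h
    exact (pos_iff_neg_of_mul_neg h2).mp hwi
  have hbound : ∀ T ⊆ S.filter (fun x => w x < 0), ∑ x ∈ T, weight t U x < weight t U i := by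
    intro T hT
    have h1 : ∑ x ∈ T, |w x| ≤ ∑ x ∈ S.filter (fun x => w x < 0), |w x| :=
      Finset.sum_le_sum_of_subset_of_nonneg hT fun _ _ _ => abs_nonneg _
    have h2 : ∑ x ∈ T, |w x| = |κ| * ∑ x ∈ T, weight t U x := by
      rw [Finset.mul_sum]
      exact Finset.sum_congr rfl fun x hx =>
        habs x (hSU x (Finset.mem_filter.mp (hT hx)).1)
    have h3 : |κ| * ∑ x ∈ T, weight t U x < |κ| * weight t U i := by
      rw [← h2, ← habs i hiU, abs_of_pos hwi]
      exact lt_of_le_of_lt h1 hneg
    exact lt_of_mul_lt_mul_left h3 hκpos.le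
  refine ⟨S, hScard, fun x hx => ?_, ?_⟩
  · by_contra hout
    push Not at hout
    obtain ⟨hix, hxk⟩ := hout
    have hxi : x ≠ i := fun h => hiS (h ▸ hx)
    have hxk' : x ≠ k := fun h => hkS (h ▸ hx)
    have hix' : i < x := lt_of_le_of_ne hix hxi.symm
    have hxk'' : x < k := lt_of_le_of_ne hxk hxk'
    -- the right neighbour of `i`
    have hRne : (U.filter fun y => i < y).Nonempty :=
      ⟨x, Finset.mem_filter.mpr ⟨hSU x hx, hix'⟩⟩
    obtain ⟨r, hrR, hrmin⟩ := Finset.exists_min_image _ (fun y => y) hRne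
    rw [Finset.mem_filter] at hrR
    obtain ⟨hrU, hir⟩ := hrR
    have hrx : r ≤ x := hrmin x (Finset.mem_filter.mpr ⟨hSU x hx, hix'⟩)
    have hrS : r ∈ S := by
      rw [hU, Finset.mem_insert, Finset.mem_insert] at hrU
      rcases hrU with h | h | h
      · exact absurd h hir.ne'
      · exact absurd (h ▸ hrx) (not_le.mpr hxk'')
      · exact h
    have hadjr : ∀ y ∈ U, y ≤ i ∨ r ≤ y := by
      intro y hy
      by_cases h : i < y
      · exact Or.inr (hrmin y (Finset.mem_filter.mpr ⟨hy, h⟩))
      · exact Or.inl (not_lt.mp h)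
    have hrneg : w r < 0 := hopp r hrU (circ_mul_neg ht hiU hrU hir hadjr)
    have hrF : r ∈ S.filter (fun x => w x < 0) := Finset.mem_filter.mpr ⟨hrS, hrneg⟩
    by_cases hL : (U.filter fun y => y < i).Nonempty
    · obtain ⟨l, hlL, hlmax⟩ := Finset.exists_max_image _ (fun y => y) hL
      rw [Finset.mem_filter] at hlL
      obtain ⟨hlU, hli⟩ := hlL
      have hlS : l ∈ S := by
        rw [hU, Finset.mem_insert, Finset.mem_insert] at hlU
        rcases hlU with h | h | h
        · exact absurd h hli.ne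
        · exact absurd (h ▸ hli) (not_lt.mpr hik.le)
        · exact h
      have hadjl : ∀ y ∈ U, y ≤ l ∨ i ≤ y := by
        intro y hy
        by_cases h : y < i
        · exact Or.inl (hlmax y (Finset.mem_filter.mpr ⟨hy, h⟩))
        · exact Or.inr (not_lt.mp h)
      have hlneg : w l < 0 := hopp l hlU (by
        rw [mul_comm]; exact circ_mul_neg ht hlU hiU hli hadjl)
      have hlF : l ∈ S.filter (fun x => w x < 0) := Finset.mem_filter.mpr ⟨hlS, hlneg⟩
      have h1 := hbound {l, r} (by
        intro y hy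
        rw [Finset.mem_insert, Finset.mem_singleton] at hy
        rcases hy with rfl | rfl
        · exact hlF
        · exact hrF)
      rw [Finset.sum_pair (hli.trans hir).ne] at h1
      have h2 := weight_le_add ht hlU hiU hrU hli hir (by
        intro y hy
        rcases hadjl y hy with h | h
        · exact Or.inl h
        · rcases hadjr y hy with h' | h'
          · exact Or.inr (Or.inl (le_antisymm h' h))
          · exact Or.inr (Or.inr h'))
      linarith
    · have h1 := hbound {r} (by
        intro y hy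
        rw [Finset.mem_singleton] at hy
        rw [hy]; exact hrF)
      rw [Finset.sum_singleton] at h1
      have h2 := weight_le_next ht hiU hrU hir (by
        intro y hy
        rcases hadjr y hy with h | h
        · refine Or.inl (le_antisymm h (not_lt.mp fun h' => hL ⟨y, ?_⟩))
          exact Finset.mem_filter.mpr ⟨hy, h'⟩
        · exact Or.inr h)
      linarith
  · have h1 : ∑ x ∈ S, |w x| = |κ| * ∑ x ∈ S, weight t U x := by
      rw [Finset.mul_sum]
      exact Finset.sum_congr rfl fun x hx => habs x (hSU x hx)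
    have h2 : |κ| * ∑ x ∈ S, weight t U x < |κ| * (weight t U i + weight t U k) := by
      rw [← h1, mul_add, ← habs i hiU, ← habs k hkU]
      have := le_abs_self (w i)
      have := neg_abs_le (w k)
      linarith
    exact lt_of_mul_lt_mul_left h2 hκpos.le

/-! ### illumination and links -/

/-- Two vertices illuminated by one direction are linked. -/
lemma linked_of_joint (hn : d + 1 ≤ n) (ht : StrictMono t) {i k : Fin n} (hik : i < k)
    {v : EuclideanSpace ℝ (Fin d)}
    (hi : Illuminates (cyclicPolytope d t) v (momentPoint d (t i)))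
    (hk : Illuminates (cyclicPolytope d t) v (momentPoint d (t k))) : Linked d t i k := by
  obtain ⟨a, ha, ha0, hav⟩ := (illuminates_iff hn ht.injective v i).mp hi
  obtain ⟨b, hb, hb0, hbv⟩ := (illuminates_iff hn ht.injective v k).mp hk
  refine linked_of_gap ht hik (fun x => b x - a x) ?_ ?_
  · refine relation_pow _ ?_ ?_
    · rw [Finset.sum_sub_distrib, ha0, hb0, sub_zero]
    · simp only [sub_smul, Finset.sum_sub_distrib]
      rw [hav, hbv, sub_self]
  · unfold Gap
    set E := (Finset.univ.erase i).erase k with hE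
    have hkE : k ∈ (Finset.univ : Finset (Fin n)).erase i :=
      Finset.mem_erase.mpr ⟨hik.ne', Finset.mem_univ _⟩
    have hsplit : ∀ f : Fin n → ℝ, ∑ x, f x = f i + (f k + ∑ x ∈ E, f x) := by
      intro f
      rw [hE, Finset.add_sum_erase _ _ hkE, Finset.add_sum_erase _ _ (Finset.mem_univ _)]
    have h1 : ∑ x ∈ E, |b x - a x| ≤ ∑ x ∈ E, (a x + b x) := by
      refine Finset.sum_le_sum fun x hx => ?_
      have hxk : x ≠ k := Finset.ne_of_mem_erase hx
      have hxi : x ≠ i := Finset.ne_of_mem_erase (Finset.mem_of_mem_erase hx)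
      have := ha x hxi
      have := hb x hxk
      rw [abs_le]
      constructor <;> linarith
    rw [Finset.sum_add_distrib] at h1
    have h2 := hsplit a
    have h3 := hsplit b
    rw [ha0] at h2
    rw [hb0] at h3
    have h4 := ha k hik.ne'
    have h5 := hb i hik.ne
    linarith

/-- If `i < k` are linked then one direction illuminates all vertices from `i` to `k`. -/
lemma joint_of_linked (hn : d + 1 ≤ n) (ht : StrictMono t) {i k : Fin n} (hik : i < k)
    (h : Linked d t i k) :
    ∃ v : EuclideanSpace ℝ (Fin d), ∀ j, i ≤ j → j ≤ k →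
      Illuminates (cyclicPolytope d t) v (momentPoint d (t j)) := by
  obtain ⟨S, hScard, hSout, hlt⟩ := h
  have hkS : k ∉ S := fun h => by
    rcases hSout k h with h' | h'
    · exact absurd h' (not_lt.mpr hik.le)
    · exact lt_irrefl _ h'
  have hjS : ∀ j, i ≤ j → j ≤ k → j ∉ S := fun j h1 h2 h => by
    rcases hSout j h with h' | h'
    · exact absurd h' (not_lt.mpr h1)
    · exact absurd h' (not_lt.mpr h2)
  -- the product at `k`
  set P : Fin n → ℝ := fun x => ∏ y ∈ S.erase x, (t x - t y) with hP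
  have hPk : P k = ∏ y ∈ S, (t k - t y) := by
    simp only [hP, Finset.erase_eq_of_notMem hkS]
  have hPk0 : P k ≠ 0 := by
    rw [hPk]
    refine Finset.prod_ne_zero_iff.mpr fun y hy => ?_
    rw [sub_ne_zero]
    exact fun h => hkS ((ht.injective h) ▸ hy)
  -- normalised circuits
  set η : ℝ := - (P k) / |P k| with hη
  have hη2 : η * η = 1 := by
    rw [hη]
    have : |P k| * |P k| = P k * P k := abs_mul_abs_self _
    have h0 : |P k| ≠ 0 := abs_ne_zero.mpr hPk0
    field_simp
    rw [sq, sq, this]
  set R : Fin n → Fin n → ℝ := fun j x => η * (t k - t j) * circ t (insert j (insert k S)) x with hR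
  have hUcard : ∀ j, i ≤ j → j < k → (insert j (insert k S)).card = d + 2 := by
    intro j h1 h2
    have hj := hjS j h1 h2.le
    rw [Finset.card_insert_of_notMem, Finset.card_insert_of_notMem hkS, hScard]
    rw [Finset.mem_insert, not_or]
    exact ⟨h2.ne, hj⟩
  have hRrel : ∀ j, i ≤ j → j < k → ∀ e ≤ d, ∑ x, R j x * t x ^ e = 0 := by
    intro j h1 h2 e he
    have h3 := circ_pow ht.injective (insert j (insert k S)) e (by rw [hUcard j h1 h2]; omega)
    simp only [hR, mul_assoc]
    rw [← Finset.mul_sum, ← Finset.mul_sum, h3, mul_zero, mul_zero]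
  have hRk : ∀ j, i ≤ j → j < k → R j k = - |P k|⁻¹ := by
    intro j h1 h2
    have hj := hjS j h1 h2.le
    have hjk : j ∉ S.erase k := fun h => hj (Finset.mem_of_mem_erase h)
    have h3 : circ t (insert j (insert k S)) k = ((t k - t j) * P k)⁻¹ := by
      rw [circ, if_pos (Finset.mem_insert_of_mem (Finset.mem_insert_self _ _)), hPk]
      congr 1
      rw [Finset.erase_insert_of_ne h2.ne, Finset.erase_insert hkS, Finset.prod_insert hj]
    have h4 : t k - t j ≠ 0 := sub_ne_zero.mpr (fun h => h2.ne' (ht.injective h))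
    have h0 : |P k| ≠ 0 := abs_ne_zero.mpr hPk0
    simp only [hR]
    rw [h3, hη]
    field_simp
  have hRx : ∀ j, i ≤ j → j < k → ∀ x ∈ S,
      ∃ r : ℝ, 0 < r ∧ r ≤ 1 ∧ R j x = r * R i x := by
    intro j h1 h2 x hx
    have hj := hjS j h1 h2.le
    have hi := hjS i le_rfl hik.le
    have hxk : x ≠ k := fun h => hkS (h ▸ hx)
    have hxj : x ≠ j := fun h => hj (h ▸ hx)
    have hxi : x ≠ i := fun h => hi (h ▸ hx)
    have hcirc : ∀ l, l ∉ S → l ≠ k → x ≠ l → circ t (insert l (insert k S)) x =
        ((t x - t l) * ((t x - t k) * P x))⁻¹ := by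
      intro l hl hlk hxl
      rw [circ, if_pos (Finset.mem_insert_of_mem (Finset.mem_insert_of_mem hx))]
      congr 1
      rw [Finset.erase_insert_of_ne hxl.symm, Finset.prod_insert, Finset.erase_insert_of_ne hxk.symm,
        Finset.prod_insert]
      · exact fun h => hkS (Finset.mem_of_mem_erase h)
      · rw [Finset.mem_erase, Finset.mem_insert, not_and_or, not_or]
        exact Or.inr ⟨hlk, hl⟩
    have e1 : t k - t j > 0 := sub_pos.mpr (ht h2)
    have e2 : t k - t i > 0 := sub_pos.mpr (ht hik)
    have e3 : 0 ≤ t j - t i := sub_nonneg.mpr (ht.monotone h1)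
    have n1 : t x - t j ≠ 0 := sub_ne_zero.mpr fun h => hxj (ht.injective h)
    have n2 : t x - t i ≠ 0 := sub_ne_zero.mpr fun h => hxi (ht.injective h)
    have n3 : t x - t k ≠ 0 := sub_ne_zero.mpr fun h => hxk (ht.injective h)
    refine ⟨(t x - t i) * (t k - t j) / ((t x - t j) * (t k - t i)), ?_, ?_, ?_⟩
    · rcases hSout x hx with h | h
      · have h3 := ht h
        have h4 := ht (lt_of_lt_of_le h h1)
        rw [show (t x - t i) * (t k - t j) / ((t x - t j) * (t k - t i)) =
          ((t i - t x) * (t k - t j)) / ((t j - t x) * (t k - t i)) by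
            rw [← neg_sub (t x) (t i), ← neg_sub (t x) (t j), neg_mul, neg_mul, neg_div_neg_eq]]
        exact div_pos (mul_pos (by linarith) e1) (mul_pos (by linarith) e2)
      · have h3 := ht h
        have h4 := ht h2
        exact div_pos (mul_pos (by linarith) e1) (mul_pos (by linarith) e2)
    · rcases hSout x hx with h | h
      · have h3 := ht h
        have h4 := ht (lt_of_lt_of_le h h1)
        rw [show (t x - t i) * (t k - t j) / ((t x - t j) * (t k - t i)) =
          ((t i - t x) * (t k - t j)) / ((t j - t x) * (t k - t i)) by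
            rw [← neg_sub (t x) (t i), ← neg_sub (t x) (t j), neg_mul, neg_mul, neg_div_neg_eq]]
        rw [div_le_one (mul_pos (by linarith) e2)]
        nlinarith
      · have h3 := ht h
        have h4 := ht h2
        rw [div_le_one (mul_pos (by linarith) e2)]
        nlinarith
    · simp only [hR]
      rw [hcirc j hj h2.ne hxj, hcirc i hi hik.ne hxi]
      have hPx : P x ≠ 0 := by
        simp only [hP]
        refine Finset.prod_ne_zero_iff.mpr fun y hy => ?_
        rw [sub_ne_zero]
        exact fun h => (Finset.ne_of_mem_erase hy) (ht.injective h).symm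
      field_simp
  -- the key inequality
  have hiS := hjS i le_rfl hik.le
  have hikS : i ∉ insert k S := by rw [Finset.mem_insert, not_or]; exact ⟨hik.ne, hiS⟩
  have hkey : ∑ x ∈ S, max (R i x) 0 < |P k|⁻¹ := by
    have hsum : R i i + R i k + ∑ x ∈ S, R i x = 0 := by
      have h3 := hRrel i le_rfl hik 0 (Nat.zero_le _)
      simp only [pow_zero, mul_one] at h3
      have h4 : ∑ x ∈ insert i (insert k S), R i x = 0 := by
        rw [← h3]
        refine Finset.sum_subset (Finset.subset_univ _) fun x _ hx => ?_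
        simp only [hR, circ, if_neg hx, mul_zero]
      rw [Finset.sum_insert hikS, Finset.sum_insert hkS] at h4
      linarith
    have habs : ∀ x ∈ insert i (insert k S),
        |R i x| = (t k - t i) * weight t (insert i (insert k S)) x := by
      intro x hx
      have e2 : 0 < t k - t i := sub_pos.mpr (ht hik)
      have hη1 : |η| = 1 := by
        have h5 : |η| * |η| = 1 := by rw [← abs_mul, hη2, abs_one]
        nlinarith [abs_nonneg η]
      simp only [hR]
      rw [abs_mul, abs_mul, hη1, one_mul, abs_of_pos e2, abs_circ hx]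
    have e2 : 0 < t k - t i := sub_pos.mpr (ht hik)
    have h5 : ∑ x ∈ S, |R i x| < |R i i| + |R i k| := by
      rw [habs i (Finset.mem_insert_self _ _),
        habs k (Finset.mem_insert_of_mem (Finset.mem_insert_self _ _)), ← mul_add]
      have h6 : ∑ x ∈ S, |R i x| = (t k - t i) * ∑ x ∈ S, weight t (insert i (insert k S)) x := by
        rw [Finset.mul_sum]
        exact Finset.sum_congr rfl fun x hx =>
          habs x (Finset.mem_insert_of_mem (Finset.mem_insert_of_mem hx))
      rw [h6]
      exact mul_lt_mul_of_pos_left hlt e2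
    have hRik : R i k = - |P k|⁻¹ := hRk i le_rfl hik
    have hPinv : 0 < |P k|⁻¹ := inv_pos.mpr (abs_pos.mpr hPk0)
    have hRii : 0 < R i i := by
      have h6 : circ t (insert i (insert k S)) i * circ t (insert i (insert k S)) k < 0 := by
        refine circ_mul_neg ht (Finset.mem_insert_self _ _)
          (Finset.mem_insert_of_mem (Finset.mem_insert_self _ _)) hik fun y hy => ?_
        rw [Finset.mem_insert, Finset.mem_insert] at hy
        rcases hy with rfl | rfl | hy
        · exact Or.inl le_rfl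
        · exact Or.inr le_rfl
        · rcases hSout y hy with h | h
          · exact Or.inl h.le
          · exact Or.inr h.le
      have h7 : R i i * R i k < 0 := by
        have : R i i * R i k = (η * (t k - t i)) * (η * (t k - t i)) *
            (circ t (insert i (insert k S)) i * circ t (insert i (insert k S)) k) := by
          simp only [hR]; ring
        rw [this]
        refine mul_neg_of_pos_of_neg ?_ h6
        have h8 : (η * (t k - t i)) * (η * (t k - t i)) = (t k - t i) * (t k - t i) := by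
          have : (η * (t k - t i)) * (η * (t k - t i)) = (η * η) * ((t k - t i) * (t k - t i)) := by
            ring
          rw [this, hη2, one_mul]
        rw [h8]; exact mul_pos e2 e2
      rw [hRik] at h7
      by_contra hcon
      push Not at hcon
      nlinarith
    have h9 : ∑ x ∈ S, max (R i x) 0 = (∑ x ∈ S, |R i x| + ∑ x ∈ S, R i x) / 2 := by
      rw [← Finset.sum_add_distrib, Finset.sum_div]
      refine Finset.sum_congr rfl fun x _ => ?_
      rcases le_total 0 (R i x) with h | h
      · rw [max_eq_left h, abs_of_nonneg h]; ring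
      · rw [max_eq_right h, abs_of_nonpos h]; ring
    rw [h9]
    rw [abs_of_pos hRii, hRik, abs_neg, abs_of_pos hPinv] at h5
    rw [hRik] at hsum
    linarith
  -- choice of the weights
  have hn0 : (0 : ℝ) < n := by
    have : 0 < n := by omega
    exact_mod_cast this
  set δ := |P k|⁻¹ - ∑ x ∈ S, max (R i x) 0 with hδ
  have hδpos : 0 < δ := sub_pos.mpr hkey
  set ε := δ / (2 * n) with hε
  have hεpos : 0 < ε := by positivity
  set w0 : Fin n → ℝ := fun x => ε + if x ∈ S then max (R i x) 0 else 0 with hw0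
  have hw0pos : ∀ x, ε ≤ w0 x := by
    intro x
    simp only [hw0]
    split_ifs
    · linarith [le_max_right (R i x) 0]
    · linarith
  set M := ∑ x ∈ Finset.univ.erase k, w0 x with hM
  have hMlt : M < |P k|⁻¹ := by
    have h1 : ∑ x, w0 x = n * ε + ∑ x ∈ S, max (R i x) 0 := by
      simp only [hw0, Finset.sum_add_distrib, Finset.sum_const, Finset.card_univ, Fintype.card_fin,
        nsmul_eq_mul, Finset.sum_ite_mem, Finset.univ_inter]
    have h2 : w0 k + M = ∑ x, w0 x := Finset.add_sum_erase _ _ (Finset.mem_univ k)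
    have h3 : (n : ℝ) * ε = δ / 2 := by rw [hε]; field_simp
    have h4 := hw0pos k
    rw [h3] at h1
    linarith
  set w : Fin n → ℝ := fun x => if x = k then -M else w0 x with hw
  have hwk : w k = -M := by simp [hw]
  have hwx : ∀ x, x ≠ k → w x = w0 x := fun x hx => by simp [hw, hx]
  have hwsum : ∑ x, w x = 0 := by
    rw [← Finset.add_sum_erase _ _ (Finset.mem_univ k), hwk, hM]
    have : ∑ x ∈ Finset.univ.erase k, w x = ∑ x ∈ Finset.univ.erase k, w0 x :=
      Finset.sum_congr rfl fun x hx => hwx x (Finset.ne_of_mem_erase hx)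
    rw [this]; ring
  refine ⟨∑ x, w x • momentPoint d (t x), fun j hij hjk => ?_⟩
  rw [illuminates_iff hn ht.injective]
  rcases eq_or_lt_of_le hjk with rfl | hjk
  · exact ⟨w, fun x hx => by rw [hwx x hx]; linarith [hw0pos x], hwsum, rfl⟩
  · refine ⟨fun x => w x - R j x, fun x hx => ?_, ?_, ?_⟩
    · change 0 < w x - R j x
      by_cases hxk : x = k
      · subst hxk
        rw [hwk, hRk j hij hjk]
        linarith
      · rw [hwx x hxk]
        by_cases hxS : x ∈ S
        · obtain ⟨r, hr0, hr1, hr⟩ := hRx j hij hjk x hxS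
          have h1 : w0 x = ε + max (R i x) 0 := by simp [hw0, hxS]
          have h2 : R j x ≤ max (R i x) 0 := by
            rw [hr]
            rcases le_total 0 (R i x) with h | h
            · rw [max_eq_left h]; nlinarith
            · rw [max_eq_right h]; nlinarith
          linarith
        · have h1 : R j x = 0 := by
            simp only [hR, circ]
            rw [if_neg, mul_zero]
            rw [Finset.mem_insert, Finset.mem_insert]
            tauto
          rw [h1, sub_zero]
          linarith [hw0pos x]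
    · rw [Finset.sum_sub_distrib, hwsum]
      have := hRrel j hij hjk 0 (Nat.zero_le _)
      simp only [pow_zero, mul_one] at this
      rw [this, sub_zero]
    · simp only [sub_smul, Finset.sum_sub_distrib]
      rw [relation_smul (R j) (hRrel j hij hjk), sub_zero]

/-! ### boundary points and vertices -/

lemma isClosed_cyclic : IsClosed (cyclicPolytope d t) :=
  (Set.finite_range _).isClosed_convexHull ℝ

lemma vertex_mem (j : Fin n) : momentPoint d (t j) ∈ cyclicPolytope d t :=
  subset_convexHull ℝ _ ⟨j, rfl⟩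

lemma vertex_notMem_interior (hd : 2 ≤ d) (hn : d + 1 ≤ n) (ht : Function.Injective t)
    (i : Fin n) : momentPoint d (t i) ∉ interior (cyclicPolytope d t) := by
  intro h
  have hn0 : 0 < n := by omega
  obtain ⟨w, hw0, hw1, hw⟩ := interior_pos hn0 h
  have hrel := relation_pow (d := d) (t := t) (fun j => w j - if j = i then 1 else 0)
    (by rw [Finset.sum_sub_distrib, hw1]; simp)
    (by simp only [sub_smul, Finset.sum_sub_distrib]; rw [hw]; simp)
  have h2 := relation_eval _ hrel ((Polynomial.X - Polynomial.C (t i)) ^ 2)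
    (by rw [Polynomial.natDegree_pow, Polynomial.natDegree_X_sub_C]; omega)
  simp only [Polynomial.eval_pow, Polynomial.eval_sub, Polynomial.eval_X, Polynomial.eval_C] at h2
  obtain ⟨j, hj⟩ : ∃ j : Fin n, j ≠ i := by
    have : Nontrivial (Fin n) := Fin.nontrivial_iff_two_le.mpr (by omega)
    exact exists_ne i
  have h3 : 0 < ∑ x, (w x - if x = i then (1 : ℝ) else 0) * (t x - t i) ^ 2 := by
    refine Finset.sum_pos' (fun x _ => ?_) ⟨j, Finset.mem_univ _, ?_⟩
    · by_cases hx : x = i
      · simp [hx]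
      · rw [if_neg hx, sub_zero]
        have := hw0 x
        positivity
    · rw [if_neg hj, sub_zero]
      have h4 : t j - t i ≠ 0 := sub_ne_zero.mpr fun h => hj (ht h)
      have := hw0 j
      positivity
  linarith

lemma vertex_mem_frontier (hd : 2 ≤ d) (hn : d + 1 ≤ n) (ht : Function.Injective t)
    (i : Fin n) : momentPoint d (t i) ∈ frontier (cyclicPolytope d t) := by
  rw [frontier, isClosed_cyclic.closure_eq]
  exact ⟨vertex_mem i, vertex_notMem_interior hd hn ht i⟩

/-- A direction illuminating a vertex which occurs in `q` illuminates `q`. -/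
lemma illuminates_of_vertex (hn : d + 1 ≤ n) (ht : Function.Injective t) (w : Fin n → ℝ)
    (hw0 : ∀ j, 0 ≤ w j) (hw1 : ∑ j, w j = 1) {x : Fin n} (hx : 0 < w x)
    {v : EuclideanSpace ℝ (Fin d)}
    (hv : Illuminates (cyclicPolytope d t) v (momentPoint d (t x))) :
    Illuminates (cyclicPolytope d t) v (∑ j, w j • momentPoint d (t j)) := by
  obtain ⟨u, hu, hu0, rfl⟩ := (illuminates_iff hn ht v x).mp hv
  set s := w x / (1 + |u x|) with hs
  have hspos : 0 < s := by positivity
  refine ⟨s, hspos, ?_⟩
  have h := pos_interior hn ht (fun j => w j + s * u j) (fun j => ?_) ?_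
  · convert h using 1
    simp only [add_smul, mul_smul, Finset.sum_add_distrib, ← Finset.smul_sum]
  · by_cases hj : j = x
    · subst hj
      have h1 : |s * u j| < w j := by
        rw [abs_mul, abs_of_pos hspos, hs, div_mul_eq_mul_div, div_lt_iff₀ (by positivity)]
        nlinarith [abs_nonneg (u j)]
      have := (abs_lt.mp h1).1
      change 0 < w j + s * u j
      linarith
    · have := hw0 j
      have := mul_pos hspos (hu j hj)
      change 0 < w j + s * u j
      linarith
  · rw [Finset.sum_add_distrib, ← Finset.mul_sum, hu0, hw1]; simp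

lemma Illuminates.smul {K : Set (EuclideanSpace ℝ (Fin d))} {v q : EuclideanSpace ℝ (Fin d)}
    (h : Illuminates K v q) {c : ℝ} (hc : 0 < c) : Illuminates K (c • v) q := by
  obtain ⟨s, hs, hmem⟩ := h
  refine ⟨s / c, div_pos hs hc, ?_⟩
  rw [smul_smul, div_mul_cancel₀ _ hc.ne']
  exact hmem

lemma exists_single (hn : d + 1 ≤ n) (ht : Function.Injective t) (i : Fin n) :
    ∃ v : EuclideanSpace ℝ (Fin d), Illuminates (cyclicPolytope d t) v (momentPoint d (t i)) := by
  refine ⟨_, (illuminates_iff hn ht _ i).mpr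
    ⟨fun j => if j = i then -(∑ l ∈ Finset.univ.erase i, (1 : ℝ)) else 1, fun j hj => ?_, ?_, rfl⟩⟩
  · simp only [if_neg hj]; exact one_pos
  · rw [← Finset.add_sum_erase _ _ (Finset.mem_univ i), if_pos rfl]
    have : ∑ x ∈ Finset.univ.erase i,
        (if x = i then -(∑ l ∈ Finset.univ.erase i, (1 : ℝ)) else 1) =
        ∑ x ∈ Finset.univ.erase i, (1 : ℝ) :=
      Finset.sum_congr rfl fun x hx => if_neg (Finset.ne_of_mem_erase hx)
    rw [this]; ring

lemma illuminable_of_blocks (hd : 2 ≤ d) (hn : d + 1 ≤ n) (ht : StrictMono t) {m : ℕ}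
    (h : BlockPartition d t m) : IlluminableBy (cyclicPolytope d t) m := by
  obtain ⟨f, hf, hlink⟩ := h
  have hdir : ∀ a : Fin m, ∃ v : EuclideanSpace ℝ (Fin d), ‖v‖ = 1 ∧
      ∀ j, f j = a → Illuminates (cyclicPolytope d t) v (momentPoint d (t j)) := by
    intro a
    by_cases hne : (Finset.univ.filter fun j => f j = a).Nonempty
    · obtain ⟨i, hi, himin⟩ := Finset.exists_min_image _ (fun j => j) hne
      obtain ⟨k, hk, hkmax⟩ := Finset.exists_max_image _ (fun j => j) hne
      simp only [Finset.mem_filter, Finset.mem_univ, true_and] at hi hk himin hkmax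
      have hv : ∃ v : EuclideanSpace ℝ (Fin d), ∀ j, f j = a →
          Illuminates (cyclicPolytope d t) v (momentPoint d (t j)) := by
        rcases eq_or_lt_of_le (himin k hk) with hik | hik
        · obtain ⟨v, hv⟩ := exists_single hn ht.injective i
          refine ⟨v, fun j hj => ?_⟩
          have : j = i := le_antisymm (hik ▸ hkmax j hj) (himin j hj)
          rw [this]; exact hv
        · obtain ⟨v, hv⟩ := joint_of_linked hn ht hik (hlink i k hik (hi.trans hk.symm)
            fun j hj => ⟨himin j (hj.trans hi), hkmax j (hj.trans hi)⟩)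
          exact ⟨v, fun j hj => hv j (himin j hj) (hkmax j hj)⟩
      obtain ⟨v, hv⟩ := hv
      have hv0 : v ≠ 0 := by
        rintro rfl
        obtain ⟨s, hs, hmem⟩ := hv i hi
        rw [smul_zero, add_zero] at hmem
        exact vertex_notMem_interior hd hn ht.injective i hmem
      have hnorm : 0 < ‖v‖ := norm_pos_iff.mpr hv0
      refine ⟨‖v‖⁻¹ • v, ?_, fun j hj => (hv j hj).smul (inv_pos.mpr hnorm)⟩
      rw [norm_smul, norm_inv, norm_norm, inv_mul_cancel₀ hnorm.ne']
    · refine ⟨EuclideanSpace.single ⟨0, by omega⟩ 1, by simp, fun j hj => ?_⟩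
      exact absurd ⟨j, Finset.mem_filter.mpr ⟨Finset.mem_univ _, hj⟩⟩ hne
  choose v hv1 hv using hdir
  refine ⟨v, hv1, fun q hq => ?_⟩
  have hqK : q ∈ cyclicPolytope d t := isClosed_cyclic.frontier_subset hq
  obtain ⟨w, hw0, hw1, rfl⟩ := (mem_cyclic_iff q).mp hqK
  obtain ⟨x, -, hx⟩ : ∃ x ∈ (Finset.univ : Finset (Fin n)), 0 < w x := by
    by_contra hcon
    push Not at hcon
    have : ∑ j, w j ≤ 0 := Finset.sum_nonpos hcon
    linarith
  exact ⟨f x, illuminates_of_vertex hn ht.injective w hw0 hw1 hx (hv (f x) x rfl)⟩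

lemma linked_mono (hn : d + 1 ≤ n) (ht : StrictMono t) {i k i' k' : Fin n} (hik : i < k)
    (h : Linked d t i k) (h1 : i ≤ i') (h2 : i' < k') (h3 : k' ≤ k) : Linked d t i' k' := by
  obtain ⟨v, hv⟩ := joint_of_linked hn ht hik h
  exact linked_of_joint hn ht h2 (hv i' h1 (h2.le.trans h3)) (hv k' (h1.trans h2.le) h3)

lemma blocks_of_illuminable (hd : 2 ≤ d) (hn : d + 1 ≤ n) (ht : StrictMono t) {m : ℕ}
    (h : IlluminableBy (cyclicPolytope d t) m) : BlockPartition d t m := by
  classical
  obtain ⟨v, -, hv⟩ := h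
  have hg : ∀ j, ∃ a, Illuminates (cyclicPolytope d t) (v a) (momentPoint d (t j)) := fun j =>
    hv _ (vertex_mem_frontier hd hn ht.injective j)
  choose g hg using hg
  let F : Fin n → Finset (Fin m) := fun j => Finset.univ.filter fun a => ∀ l, g l = a → l < j
  have hgF : ∀ j, g j ∉ F j := fun j hj =>
    lt_irrefl _ ((Finset.mem_filter.mp hj).2 j rfl)
  have hlt : ∀ j, (F j).card < m := by
    intro j
    have : F j ⊂ Finset.univ := by
      refine ⟨Finset.subset_univ _, fun h => hgF j (h (Finset.mem_univ _))⟩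
    simpa using Finset.card_lt_card this
  have hmono : ∀ i j, i ≤ j → F i ⊆ F j := by
    intro i j hij a ha
    rw [Finset.mem_filter] at ha ⊢
    exact ⟨ha.1, fun l hl => lt_of_lt_of_le (ha.2 l hl) hij⟩
  refine ⟨fun j => ⟨(F j).card, hlt j⟩, fun i j hij => Finset.card_le_card (hmono i j hij), ?_⟩
  intro i k hik heq _
  have hcard : (F i).card = (F k).card := congrArg Fin.val heq
  have hFeq : F i = F k := Finset.eq_of_subset_of_card_le (hmono i k hik.le) hcard.ge
  have hnot : g i ∉ F k := hFeq ▸ hgF i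
  have : ∃ l, g l = g i ∧ k ≤ l := by
    by_contra hcon
    push Not at hcon
    exact hnot (Finset.mem_filter.mpr ⟨Finset.mem_univ _, fun l hl => hcon l hl⟩)
  obtain ⟨l, hl, hkl⟩ := this
  have h1 := hg i
  have h2 := hg l
  rw [hl] at h2
  have hil : i < l := lt_of_lt_of_le hik hkl
  exact linked_mono hn ht hil (linked_of_joint hn ht hil h1 h2) le_rfl hik hkl

theorem illuminableBy_iff (hd : 2 ≤ d) (hn : d + 1 ≤ n) (ht : StrictMono t) (m : ℕ) :
    IlluminableBy (cyclicPolytope d t) m ↔ BlockPartition d t m :=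
  ⟨blocks_of_illuminable hd hn ht, illuminable_of_blocks hd hn ht⟩

theorem isLeast_blockNumber (hd : 2 ≤ d) (hn : d + 1 ≤ n) (ht : StrictMono t) :
    IsLeast {m : ℕ | IlluminableBy (cyclicPolytope d t) m} (blockNumber d t) := by
  have hne : {m | BlockPartition d t m}.Nonempty := by
    refine ⟨n, id, monotone_id, fun i k hik h _ => ?_⟩
    exact absurd h hik.ne
  refine ⟨(illuminableBy_iff hd hn ht _).mpr (Nat.sInf_mem hne),
    fun m hm => Nat.sInf_le ((illuminableBy_iff hd hn ht m).mp hm)⟩

end Pool.Agent.CyclicIllum
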