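import Mathlib
import Pool.Agent.CyclicIllum.Core

set_option autoImplicit false

open Finset Polynomial Filter Topology

namespace Pool.Agent.CyclicIllum

/-- `q` has degree at most `d`, its value at `τ j` is smaller and its value at `τ (j + 1)` is larger
than all its other values at `τ 0, ..., τ (N - 1)`. -/
def Anti (d N : ℕ) (τ : ℕ → ℝ) (j : ℕ) (q : ℝ[X]) : Prop :=
  q.natDegree ≤ d ∧ q.eval (τ j) < q.eval (τ (j + 1)) ∧
    ∀ i < N, i ≠ j → i ≠ j + 1 → q.eval (τ j) < q.eval (τ i) ∧ q.eval (τ i) < q.eval (τ (j + 1))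

def Good (d N : ℕ) (τ : ℕ → ℝ) : Prop :=
  (∀ i j, i < j → j < N → τ i < τ j) ∧
  ∃ q : ℕ → ℝ[X], (∀ j, j + 1 < N → Anti d N τ j (q j)) ∧ 0 < (q 0).derivative.eval (τ 0)

lemma Anti.normalise {d N : ℕ} {τ : ℕ → ℝ} {j : ℕ} {q : ℝ[X]} (h : Anti d N τ j q) :
    ∃ q' : ℝ[X], q'.natDegree ≤ d ∧ q'.eval (τ j) = -1 ∧ q'.eval (τ (j + 1)) = 1 ∧
      (∀ i < N, i ≠ j → i ≠ j + 1 → |q'.eval (τ i)| < 1) ∧
      (0 < q.derivative.eval (τ 0) → 0 < q'.derivative.eval (τ 0)) := by
  obtain ⟨h1, h2, h3⟩ := h
  set a := q.eval (τ j) with ha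
  set b := q.eval (τ (j + 1)) with hb
  have hab : 0 < b - a := by linarith
  have hev : ∀ y, (C (2 / (b - a)) * q - C ((a + b) / (b - a))).eval y =
      (2 * q.eval y - (a + b)) / (b - a) := by
    intro y
    simp only [eval_sub, eval_mul, eval_C]
    field_simp
  refine ⟨C (2 / (b - a)) * q - C ((a + b) / (b - a)), ?_, ?_, ?_, ?_, ?_⟩
  · refine (natDegree_sub_le _ _).trans (max_le ?_ ?_)
    · exact (natDegree_C_mul_le _ _).trans h1
    · simp
  · rw [hev, ← ha, div_eq_iff hab.ne']; ring
  · rw [hev, ← hb, div_eq_iff hab.ne']; ring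
  · intro i hi h4 h5
    obtain ⟨h6, h7⟩ := h3 i hi h4 h5
    rw [hev, abs_lt, lt_div_iff₀ hab, div_lt_iff₀ hab]
    constructor <;> linarith
  · intro h6
    simp only [derivative_sub, derivative_mul, derivative_C, zero_mul, zero_add, sub_zero,
      eval_mul, eval_C]
    positivity

lemma good_base : ∃ τ, Good 2 3 τ := by
  refine ⟨fun i => (i : ℝ), ?_, fun j => if j = 0 then
    C (-1) + C (7 / 2) * X + C (-3 / 2) * X ^ 2 else C (-5 / 2) * X + C (3 / 2) * X ^ 2, ?_, ?_⟩
  · intro i j hij _
    exact Nat.cast_lt.mpr hij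
  · intro j hj
    have hj' : j = 0 ∨ j = 1 := by omega
    rcases hj' with rfl | rfl
    · refine ⟨?_, ?_, ?_⟩
      · simp only [if_true]; compute_degree
      · simp only [if_true]; norm_num
      · intro i hi h0 h1
        have : i = 2 := by omega
        subst this
        simp only [if_true]; norm_num
    · refine ⟨?_, ?_, ?_⟩
      · simp only [one_ne_zero, if_false]; compute_degree
      · simp only [one_ne_zero, if_false]; norm_num
      · intro i hi h0 h1
        have : i = 0 := by omega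
        subst this
        simp only [one_ne_zero, if_false]; norm_num
  · simp

/-- Value at infinity of a polynomial of degree at most `d`. -/
lemma tendsto_eval_div (d : ℕ) (q : ℝ[X]) (hq : q.natDegree ≤ d) (e : ℝ → ℝ)
    (he : Tendsto (fun M => e M / M) atTop (𝓝 0)) :
    Tendsto (fun M => q.eval (M + e M) / M ^ d) atTop (𝓝 (q.coeff d)) := by
  have h1 : Tendsto (fun M : ℝ => (M + e M) / M) atTop (𝓝 1) := by
    have h2 : Tendsto (fun M : ℝ => 1 + e M / M) atTop (𝓝 (1 + 0)) := he.const_add 1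
    rw [add_zero] at h2
    refine h2.congr' ?_
    filter_upwards [eventually_gt_atTop 0] with M hM
    field_simp
  have h3 : ∀ k ∈ range (d + 1), Tendsto (fun M : ℝ => q.coeff k * (M + e M) ^ k / M ^ d) atTop
      (𝓝 (if k = d then q.coeff k else 0)) := by
    intro k hk
    rw [mem_range] at hk
    have h4 : Tendsto (fun M : ℝ => q.coeff k * (((M + e M) / M) ^ k * (M⁻¹) ^ (d - k))) atTop
        (𝓝 (q.coeff k * (1 ^ k * 0 ^ (d - k)))) :=
      ((h1.pow k).mul (tendsto_inv_atTop_zero.pow (d - k))).const_mul _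
    have h5 : q.coeff k * (1 ^ k * 0 ^ (d - k)) = if k = d then q.coeff k else 0 := by
      split_ifs with h
      · subst h; simp
      · rw [zero_pow (by omega)]; simp
    rw [h5] at h4
    refine h4.congr' ?_
    filter_upwards [eventually_gt_atTop 0] with M hM
    rw [div_pow, inv_pow]
    have h6 : M ^ d = M ^ k * M ^ (d - k) := by rw [← pow_add]; congr 1; omega
    rw [h6]
    field_simp
  have h7 := tendsto_finsetSum (range (d + 1)) h3
  have h8 : ∑ k ∈ range (d + 1), (if k = d then q.coeff k else 0) = q.coeff d := by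
    rw [Finset.sum_ite_eq']; simp
  rw [h8] at h7
  refine h7.congr fun M => ?_
  rw [eval_eq_sum_range' (n := d + 1) (by omega), Finset.sum_div]

/-- Choice of the auxiliary polynomial. -/
lemma exists_monic {d N : ℕ} (hd : 2 ≤ d) {τ : ℕ → ℝ} (hτ : ∀ i j, i < j → j < N → τ i < τ j)
    (q : ℕ → ℝ[X]) (hq : ∀ j, j + 1 < N → (q j).natDegree ≤ d ∧ (q j).eval (τ j) = -1 ∧
      (q j).eval (τ (j + 1)) = 1 ∧ (∀ i < N, i ≠ j → i ≠ j + 1 → |(q j).eval (τ i)| < 1)) :
    ∃ (P : ℝ[X]) (θ : ℝ), P.natDegree ≤ d ∧ P.coeff d = 1 ∧ 0 < θ ∧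
      (∀ i < N, |P.eval (τ i)| < θ) ∧ ∀ j, j + 1 < N → |(q j).coeff d| * θ < 1 := by
  by_cases hall : ∀ j, j + 1 < N → (q j).coeff d = 0
  · refine ⟨X ^ d, 1 + ∑ i ∈ range N, |τ i ^ d|, by simp, by simp, by positivity, ?_, ?_⟩
    · intro i hi
      have := Finset.single_le_sum (f := fun i => |τ i ^ d|) (fun _ _ => abs_nonneg _)
        (mem_range.mpr hi)
      simp only [eval_pow, eval_X]
      linarith
    · intro j hj
      rw [hall j hj, abs_zero, zero_mul]
      exact one_pos
  · push Not at hall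
    obtain ⟨j0, hj0, hc0⟩ := hall
    obtain ⟨j, hj, hjmax⟩ := Finset.exists_max_image (range (N - 1)) (fun j => |(q j).coeff d|)
      ⟨j0, by rw [mem_range]; omega⟩
    rw [mem_range] at hj
    have hcpos : 0 < |(q j).coeff d| := by
      have h1 := hjmax j0 (by rw [mem_range]; omega)
      have h2 : 0 < |(q j0).coeff d| := abs_pos.mpr hc0
      linarith
    set c := (q j).coeff d with hc
    obtain ⟨h1, h2, h3, h4⟩ := hq j (by omega)
    have hlt : 0 < τ (j + 1) - τ j := by
      have := hτ j (j + 1) (by omega) (by omega)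
      linarith
    let r : ℝ[X] := C (2 / (τ (j + 1) - τ j)) * (X - C ((τ j + τ (j + 1)) / 2))
    have hr1 : r.eval (τ j) = -1 := by
      simp only [r, eval_mul, eval_C, eval_sub, eval_X]
      field_simp
      ring
    have hr2 : r.eval (τ (j + 1)) = 1 := by
      simp only [r, eval_mul, eval_C, eval_sub, eval_X]
      field_simp
      ring
    have hev : ∀ i ∈ range N, ∀ᶠ η in 𝓝[>] (0 : ℝ), |(q j).eval (τ i) - η * r.eval (τ i)| < 1 := by
      intro i hi
      rw [mem_range] at hi
      by_cases hij : i = j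
      · subst hij
        rw [h2, hr1]
        have : Set.Ioo (0 : ℝ) 1 ∈ 𝓝[>] (0 : ℝ) := Ioo_mem_nhdsGT one_pos
        filter_upwards [this] with η hη
        rw [abs_lt]
        constructor <;> [linarith [hη.1]; linarith [hη.2]]
      · by_cases hij' : i = j + 1
        · subst hij'
          rw [h3, hr2]
          have : Set.Ioo (0 : ℝ) 1 ∈ 𝓝[>] (0 : ℝ) := Ioo_mem_nhdsGT one_pos
          filter_upwards [this] with η hη
          rw [abs_lt]
          constructor <;> [linarith [hη.2]; linarith [hη.1]]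
        · have h5 : Tendsto (fun η : ℝ => |(q j).eval (τ i) - η * r.eval (τ i)|) (𝓝 0)
              (𝓝 |(q j).eval (τ i) - 0 * r.eval (τ i)|) :=
            (Continuous.tendsto (by fun_prop) 0)
          rw [zero_mul, sub_zero] at h5
          exact (h5.eventually_lt_const (h4 i hi hij hij')).filter_mono nhdsWithin_le_nhds
    obtain ⟨η, hη⟩ := ((Filter.eventually_all_finset (range N)).mpr hev).exists
    obtain ⟨i0, hi0, hi0max⟩ := Finset.exists_max_image (range N)
      (fun i => |(q j).eval (τ i) - η * r.eval (τ i)|) ⟨0, by rw [mem_range]; omega⟩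
    set ρ := |(q j).eval (τ i0) - η * r.eval (τ i0)| with hρ
    have hρ1 : ρ < 1 := hη i0 hi0
    have hρ0 : 0 ≤ ρ := abs_nonneg _
    have hrdeg : r.natDegree ≤ 1 := by
      refine (natDegree_C_mul_le _ _).trans ?_
      exact (natDegree_X_sub_C _).le
    have hcne : c ≠ 0 := abs_pos.mp hcpos
    refine ⟨C c⁻¹ * (q j - C η * r), (ρ + 1) / 2 / |c|, ?_, ?_, by positivity, ?_, ?_⟩
    · refine (natDegree_C_mul_le _ _).trans ((natDegree_sub_le _ _).trans (max_le h1 ?_))
      refine (natDegree_C_mul_le _ _).trans (hrdeg.trans (by omega))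
    · rw [coeff_C_mul, coeff_sub, coeff_C_mul, coeff_eq_zero_of_natDegree_lt
        (lt_of_le_of_lt hrdeg (by omega)), mul_zero, sub_zero, ← hc, inv_mul_cancel₀ hcne]
    · intro i hi
      rw [eval_mul, eval_C, eval_sub, eval_mul, eval_C, abs_mul, abs_inv, lt_div_iff₀ hcpos]
      have := hi0max i (mem_range.mpr hi)
      have h6 : |c|⁻¹ * |(q j).eval (τ i) - η * r.eval (τ i)| * |c| =
          |(q j).eval (τ i) - η * r.eval (τ i)| := by field_simp
      rw [h6]
      linarith
    · intro j' hj'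
      have := hjmax j' (by rw [mem_range]; omega)
      calc |(q j').coeff d| * ((ρ + 1) / 2 / |c|) ≤ |c| * ((ρ + 1) / 2 / |c|) :=
            mul_le_mul_of_nonneg_right this (by positivity)
        _ = (ρ + 1) / 2 := by field_simp
        _ < 1 := by linarith

lemma tendsto_aux (a b y : ℝ) :
    Tendsto (fun M : ℝ => a * (1 - y / M) + b * (y / M) ^ 2) atTop (𝓝 a) := by
  have h1 : Tendsto (fun M : ℝ => y / M) atTop (𝓝 0) := tendsto_const_nhds.div_atTop tendsto_id
  have h2 : Tendsto (fun M : ℝ => a * (1 - y / M) + b * (y / M) ^ 2) atTop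
      (𝓝 (a * (1 - 0) + b * 0 ^ 2)) :=
    ((h1.const_sub 1).const_mul a).add ((h1.pow 2).const_mul b)
  simpa using h2

lemma good_step {d N : ℕ} (hd : 2 ≤ d) (hN : 2 ≤ N) {τ : ℕ → ℝ} (h : Good d N τ) :
    ∃ τ', Good (d + 1) (N + 2) τ' := by
  obtain ⟨hτ, q₀, hq₀, hder₀⟩ := h
  have hnorm : ∀ j, ∃ q' : ℝ[X], j + 1 < N → (q'.natDegree ≤ d ∧ q'.eval (τ j) = -1 ∧
      q'.eval (τ (j + 1)) = 1 ∧ (∀ i < N, i ≠ j → i ≠ j + 1 → |q'.eval (τ i)| < 1)) ∧
      (0 < (q₀ j).derivative.eval (τ 0) → 0 < q'.derivative.eval (τ 0)) := by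
    intro j
    by_cases hj : j + 1 < N
    · obtain ⟨q', h1, h2, h3, h4, h5⟩ := (hq₀ j hj).normalise
      exact ⟨q', fun _ => ⟨⟨h1, h2, h3, h4⟩, h5⟩⟩
    · exact ⟨0, fun h => absurd h hj⟩
  choose q hq' using hnorm
  have hq := fun j hj => (hq' j hj).1
  have hder := (hq' 0 (by omega)).2 hder₀
  obtain ⟨P, θ, hPdeg, hPc, hθ, hPθ, hcθ⟩ := exists_monic hd hτ q hq
  set e : ℝ → ℝ := fun M => 2 * θ / M ^ (d - 1) with he
  have he0 : Tendsto e atTop (𝓝 0) := by
    apply Tendsto.div_atTop (tendsto_const_nhds)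
    exact tendsto_pow_atTop (by omega)
  have he1 : Tendsto (fun M => e M / M) atTop (𝓝 0) := he0.div_atTop tendsto_id
  have hePos : ∀ M > 0, 0 < e M := fun M hM => by positivity
  have heM : ∀ M > 0, e M / M = 2 * θ / M ^ d := by
    intro M hM
    have : M ^ d = M ^ (d - 1) * M := by rw [← pow_succ]; congr 1; omega
    rw [he]
    simp only
    rw [this, div_div]
  let τ' : ℝ → ℕ → ℝ := fun M i => if i < N then τ i else if i = N then M else M + e M
  have hτ'1 : ∀ M, ∀ i < N, τ' M i = τ i := fun M i hi => if_pos hi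
  have hτ'2 : ∀ M, τ' M N = M := fun M => by simp [τ']
  have hτ'3 : ∀ M, τ' M (N + 1) = M + e M := fun M => by simp [τ']
  -- polynomials
  let QA : ℕ → ℝ → ℝ[X] := fun j M =>
    q j * (1 - C M⁻¹ * X) + C (θ * (q j).coeff d * M⁻¹ ^ 2) * X ^ 2
  let QB : ℝ → ℝ[X] := fun M => (X - C (τ (N - 1))) ^ 2 * (C (M + 1) - X)
  let QC : ℝ → ℝ[X] := fun M => C (θ * M)⁻¹ * (P * (X - C M)) - C (M⁻¹ ^ 2) * X ^ 2
  have hQA : ∀ j M y, (QA j M).eval y =
      (q j).eval y * (1 - y / M) + θ * (q j).coeff d * (y / M) ^ 2 := by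
    intro j M y
    simp only [QA, eval_add, eval_mul, eval_sub, eval_one, eval_C, eval_X, eval_pow]
    rw [div_eq_mul_inv]
    ring
  have hQB : ∀ M y, (QB M).eval y = (y - τ (N - 1)) ^ 2 * (M + 1 - y) := by
    intro M y
    simp [QB]
  have hQC : ∀ M y, (QC M).eval y = (θ * M)⁻¹ * (P.eval y * (y - M)) - (y / M) ^ 2 := by
    intro M y
    simp only [QC, eval_mul, eval_sub, eval_C, eval_X, eval_pow]
    rw [div_eq_mul_inv]
    ring
  have hfix : ∀ j y, Tendsto (fun M => (QA j M).eval y) atTop (𝓝 ((q j).eval y)) := by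
    intro j y
    simp only [hQA]
    exact tendsto_aux _ _ _
  have hQAM : ∀ j, ∀ M > 0, (QA j M).eval M = θ * (q j).coeff d := by
    intro j M hM
    rw [hQA, div_self (ne_of_gt hM)]
    ring
  have hratio : Tendsto (fun M => (M + e M) / M) atTop (𝓝 1) := by
    have h2 : Tendsto (fun M : ℝ => 1 + e M / M) atTop (𝓝 (1 + 0)) := he1.const_add 1
    rw [add_zero] at h2
    refine h2.congr' ?_
    filter_upwards [eventually_gt_atTop 0] with M hM
    field_simp
  have hQAMe : ∀ j, j + 1 < N →
      Tendsto (fun M => (QA j M).eval (M + e M)) atTop (𝓝 (-(θ * (q j).coeff d))) := by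
    intro j hj
    have h1 := tendsto_eval_div d (q j) (hq j hj).1 e he1
    have h2 : Tendsto (fun M => -(2 * θ * ((q j).eval (M + e M) / M ^ d)) +
        θ * (q j).coeff d * ((M + e M) / M) ^ 2) atTop
        (𝓝 (-(2 * θ * (q j).coeff d) + θ * (q j).coeff d * 1 ^ 2)) :=
      ((h1.const_mul _).neg).add ((hratio.pow 2).const_mul _)
    have h3 : -(2 * θ * (q j).coeff d) + θ * (q j).coeff d * 1 ^ 2 = -(θ * (q j).coeff d) := by
      ring
    rw [h3] at h2
    refine h2.congr' ?_
    filter_upwards [eventually_gt_atTop 0] with M hM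
    rw [hQA]
    have h4 := heM M hM
    have h5 : (M + e M) / M = 1 + 2 * θ / M ^ d := by rw [← h4]; field_simp
    have h6 : (q j).eval (M + e M) * (1 - (M + e M) / M) =
        -(2 * θ * ((q j).eval (M + e M) / M ^ d)) := by
      rw [h5]; ring
    rw [h6]
  -- first family
  have hEA : ∀ j ∈ range (N - 1), ∀ᶠ M in atTop, Anti (d + 1) (N + 2) (τ' M) j (QA j M) := by
    intro j hj
    rw [mem_range] at hj
    have hj' : j + 1 < N := by omega
    obtain ⟨g1, g2, g3, g4⟩ := hq j hj'
    have hc := hcθ j hj'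
    have hc1 : |θ * (q j).coeff d| < 1 := by rwa [abs_mul, abs_of_pos hθ, mul_comm]
    rw [abs_lt] at hc1
    have ha := hfix j (τ j)
    have hb := hfix j (τ (j + 1))
    rw [g2] at ha
    rw [g3] at hb
    have hE1 : ∀ᶠ M in atTop, (QA j M).eval (τ j) < (QA j M).eval (τ (j + 1)) :=
      ha.eventually_lt hb (by norm_num)
    have hE2 : ∀ i ∈ range N, ∀ᶠ M in atTop, i ≠ j → i ≠ j + 1 →
        (QA j M).eval (τ j) < (QA j M).eval (τ i) ∧
        (QA j M).eval (τ i) < (QA j M).eval (τ (j + 1)) := by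
      intro i hi
      rw [mem_range] at hi
      by_cases h1 : i = j
      · exact Eventually.of_forall fun M h => absurd h1 h
      by_cases h2 : i = j + 1
      · exact Eventually.of_forall fun M _ h => absurd h2 h
      have h3 := g4 i hi h1 h2
      rw [abs_lt] at h3
      filter_upwards [ha.eventually_lt (hfix j (τ i)) h3.1, (hfix j (τ i)).eventually_lt hb h3.2]
        with M h4 h5 _ _
      exact ⟨h4, h5⟩
    have hE3 : ∀ᶠ M in atTop, (QA j M).eval (τ j) < θ * (q j).coeff d :=
      ha.eventually_lt_const hc1.1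
    have hE4 : ∀ᶠ M in atTop, θ * (q j).coeff d < (QA j M).eval (τ (j + 1)) :=
      hb.eventually_const_lt hc1.2
    have hE5 : ∀ᶠ M in atTop, (QA j M).eval (τ j) < (QA j M).eval (M + e M) :=
      ha.eventually_lt (hQAMe j hj') (by linarith [hc1.2])
    have hE6 : ∀ᶠ M in atTop, (QA j M).eval (M + e M) < (QA j M).eval (τ (j + 1)) :=
      (hQAMe j hj').eventually_lt hb (by linarith [hc1.1])
    filter_upwards [hE1, (Filter.eventually_all_finset (range N)).mpr hE2, hE3, hE4, hE5, hE6,
      eventually_gt_atTop 0] with M h1 h2 h3 h4 h5 h6 hM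
    refine ⟨?_, ?_, ?_⟩
    · refine (natDegree_add_le _ _).trans (max_le ?_ ?_)
      · refine natDegree_mul_le.trans ?_
        refine add_le_add g1 ?_
        refine (natDegree_sub_le _ _).trans (max_le (by simp) ?_)
        exact (natDegree_C_mul_le _ _).trans natDegree_X_le
      · refine (natDegree_C_mul_le _ _).trans ?_
        rw [natDegree_X_pow]; omega
    · rw [hτ'1 M j (by omega), hτ'1 M (j + 1) hj']
      exact h1
    · intro i hi hij hij'
      rw [hτ'1 M j (by omega), hτ'1 M (j + 1) hj']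
      rcases Nat.lt_or_ge i N with hiN | hiN
      · rw [hτ'1 M i hiN]
        exact h2 i (mem_range.mpr hiN) hij hij'
      · rcases eq_or_lt_of_le hiN with hiN | hiN
        · subst hiN
          rw [hτ'2, hQAM j M hM]
          exact ⟨h3, h4⟩
        · have : i = N + 1 := by omega
          subst this
          rw [hτ'3]
          exact ⟨h5, h6⟩
  -- mixed pair
  have hEB : ∀ᶠ M in atTop, Anti (d + 1) (N + 2) (τ' M) (N - 1) (QB M) := by
    have hNN : N - 1 + 1 = N := by omega
    have hlarge : ∀ i ∈ range N, ∀ᶠ M in atTop, τ i < M ∧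
        (τ i - τ (N - 1)) ^ 2 * (M + 1 - τ i) < (M - τ (N - 1)) ^ 2 := by
      intro i _
      set l := τ (N - 1)
      set c := (τ i - l) ^ 2 with hc
      have hc0 : 0 ≤ c := sq_nonneg _
      set K := |1 + l - τ i| with hK
      have hK0 : 0 ≤ K := abs_nonneg _
      filter_upwards [eventually_gt_atTop (τ i), eventually_ge_atTop (l + (1 + c + c * K))]
        with M h1 h2
      refine ⟨h1, ?_⟩
      have h3 : 1 + l - τ i ≤ K := le_abs_self _
      have h4 : M + 1 - τ i ≤ (M - l) + K := by linarith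
      have h5 : c * (M + 1 - τ i) ≤ c * ((M - l) + K) := mul_le_mul_of_nonneg_left h4 hc0
      have h6 : 1 + c + c * K ≤ M - l := by linarith
      have h7 : 0 ≤ c * K := mul_nonneg hc0 hK0
      nlinarith [mul_le_mul_of_nonneg_left h6 (show 0 ≤ M - l by linarith)]
    filter_upwards [(Filter.eventually_all_finset (range N)).mpr hlarge,
      eventually_ge_atTop (τ (N - 1) + 3), eventually_gt_atTop 0,
      he0.eventually_lt_const one_pos] with M h1 h2 h3 h4
    have h5 := hePos M h3
    refine ⟨?_, ?_, ?_⟩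
    · have h6 : (C (M + 1) - X : ℝ[X]).natDegree ≤ 1 :=
        (natDegree_sub_le _ _).trans (max_le (by simp) natDegree_X_le)
      refine natDegree_mul_le.trans ?_
      have h7 : ((X - C (τ (N - 1)) : ℝ[X]) ^ 2).natDegree ≤ 2 := by
        rw [natDegree_pow, natDegree_X_sub_C]
      omega
    · rw [hNN, hτ'2, hτ'1 M (N - 1) (by omega), hQB, hQB]
      have e1 : (τ (N - 1) - τ (N - 1)) ^ 2 * (M + 1 - τ (N - 1)) = 0 := by ring
      have e2 : (M - τ (N - 1)) ^ 2 * (M + 1 - M) = (M - τ (N - 1)) ^ 2 := by ring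
      rw [e1, e2]
      have : 0 < M - τ (N - 1) := by linarith
      positivity
    · intro i hi hij hij'
      rw [hNN] at hij' ⊢
      rw [hτ'2, hτ'1 M (N - 1) (by omega), hQB, hQB, hQB]
      have e1 : (τ (N - 1) - τ (N - 1)) ^ 2 * (M + 1 - τ (N - 1)) = 0 := by ring
      have e2 : (M - τ (N - 1)) ^ 2 * (M + 1 - M) = (M - τ (N - 1)) ^ 2 := by ring
      rw [e1, e2]
      rcases Nat.lt_or_ge i N with hiN | hiN
      · rw [hτ'1 M i hiN]
        obtain ⟨h6, h7⟩ := h1 i (mem_range.mpr hiN)
        refine ⟨?_, h7⟩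
        have h8 := hτ i (N - 1) (by omega) (by omega)
        have h9 : τ i - τ (N - 1) ≠ 0 := by linarith
        have h10 : 0 < M + 1 - τ i := by linarith
        positivity
      · have : i = N + 1 := by omega
        subst this
        rw [hτ'3]
        have h6 : 3 ≤ M - τ (N - 1) := by linarith
        constructor
        · have h7 : 0 < M + e M - τ (N - 1) := by linarith
          have h8 : 0 < M + 1 - (M + e M) := by linarith
          positivity
        · have e3 : (M + e M - τ (N - 1)) ^ 2 * (M + 1 - (M + e M)) =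
              (M - τ (N - 1)) ^ 2 -
              e M * ((M - τ (N - 1) + e M) ^ 2 - 2 * (M - τ (N - 1)) - e M) := by ring
          rw [e3]
          have h7 : 0 < (M - τ (N - 1) + e M) ^ 2 - 2 * (M - τ (N - 1)) - e M := by nlinarith
          have := mul_pos h5 h7
          linarith
  -- last pair
  have hEC : ∀ᶠ M in atTop, Anti (d + 1) (N + 2) (τ' M) N (QC M) := by
    have hQCM : ∀ M > 0, (QC M).eval M = -1 := by
      intro M hM
      rw [hQC, div_self (ne_of_gt hM)]
      ring
    have hQCMe : Tendsto (fun M => (QC M).eval (M + e M)) atTop (𝓝 1) := by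
      have h1 := tendsto_eval_div d P hPdeg e he1
      rw [hPc] at h1
      have h2 : Tendsto (fun M => 2 * (P.eval (M + e M) / M ^ d) - ((M + e M) / M) ^ 2) atTop
          (𝓝 (2 * 1 - 1 ^ 2)) := (h1.const_mul 2).sub (hratio.pow 2)
      have h3 : (2 * 1 - 1 ^ 2 : ℝ) = 1 := by norm_num
      rw [h3] at h2
      refine h2.congr' ?_
      filter_upwards [eventually_gt_atTop 0] with M hM
      rw [hQC]
      have h4 := heM M hM
      have h5 : (θ * M)⁻¹ * (P.eval (M + e M) * (M + e M - M)) =
          2 * (P.eval (M + e M) / M ^ d) := by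
        have h6 : (θ * M)⁻¹ * (P.eval (M + e M) * (M + e M - M)) =
            θ⁻¹ * P.eval (M + e M) * (e M / M) := by
          rw [mul_inv]; ring
        rw [h6, h4]
        field_simp
      rw [h5]
    have hQCfix : ∀ y, Tendsto (fun M => (QC M).eval y) atTop (𝓝 (-(θ⁻¹ * P.eval y))) := by
      intro y
      have h1 := tendsto_aux (-(θ⁻¹ * P.eval y)) (-1) y
      refine h1.congr' ?_
      filter_upwards [eventually_gt_atTop 0] with M hM
      rw [hQC]
      field_simp
      ring
    have hE1 : ∀ i ∈ range N, ∀ᶠ M in atTop, (-1 : ℝ) < (QC M).eval (τ i) ∧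
        (QC M).eval (τ i) < (QC M).eval (M + e M) := by
      intro i hi
      rw [mem_range] at hi
      have h1 := hPθ i hi
      have h2 : |θ⁻¹ * P.eval (τ i)| < 1 := by
        rw [abs_mul, abs_inv, abs_of_pos hθ, inv_mul_lt_iff₀ hθ, mul_one]
        exact h1
      rw [abs_lt] at h2
      exact ((hQCfix (τ i)).eventually_const_lt (by linarith [h2.2])).and
        ((hQCfix (τ i)).eventually_lt hQCMe (by linarith [h2.1]))
    filter_upwards [(Filter.eventually_all_finset (range N)).mpr hE1,
      hQCMe.eventually_const_lt (show (-1 : ℝ) < 1 by norm_num),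
      eventually_gt_atTop 0] with M h1 h2 hM
    refine ⟨?_, ?_, ?_⟩
    · refine (natDegree_sub_le _ _).trans (max_le ?_ ?_)
      · refine (natDegree_C_mul_le _ _).trans (natDegree_mul_le.trans ?_)
        rw [natDegree_X_sub_C]
        omega
      · refine (natDegree_C_mul_le _ _).trans ?_
        rw [natDegree_X_pow]; omega
    · rw [hτ'2, hτ'3, hQCM M hM]
      exact h2
    · intro i hi hij hij'
      rw [hτ'2, hτ'3, hQCM M hM, hτ'1 M i (by omega)]
      exact h1 i (mem_range.mpr (by omega))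
  -- derivative
  have hED : ∀ᶠ M in atTop, 0 < (QA 0 M).derivative.eval (τ 0) := by
    have h1 : ∀ M : ℝ, (QA 0 M).derivative.eval (τ 0) =
        (q 0).derivative.eval (τ 0) * (1 - τ 0 * M⁻¹) - (q 0).eval (τ 0) * M⁻¹ +
        2 * (θ * (q 0).coeff d) * τ 0 * M⁻¹ ^ 2 := by
      intro M
      simp only [QA, derivative_add, derivative_mul, derivative_sub, derivative_one, derivative_C,
        derivative_X, derivative_X_pow, eval_add, eval_mul, eval_sub, eval_one, eval_C, eval_X,
        eval_pow, eval_zero, Nat.cast_ofNat]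
      ring
    have h2 : Tendsto (fun M : ℝ => (QA 0 M).derivative.eval (τ 0)) atTop
        (𝓝 ((q 0).derivative.eval (τ 0) * (1 - τ 0 * 0) - (q 0).eval (τ 0) * 0 +
        2 * (θ * (q 0).coeff d) * τ 0 * 0 ^ 2)) := by
      simp only [h1]
      have hinv : Tendsto (fun M : ℝ => M⁻¹) atTop (𝓝 0) := tendsto_inv_atTop_zero
      exact (((hinv.const_mul (τ 0)).const_sub 1).const_mul _).sub (hinv.const_mul _) |>.add
        ((hinv.pow 2).const_mul _)
    refine h2.eventually_const_lt ?_
    simpa using hder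
  obtain ⟨M, hA, hB, hC, hD, hM0, hMτ⟩ := (((Filter.eventually_all_finset (range (N - 1))).mpr
    hEA).and (hEB.and (hEC.and (hED.and ((eventually_gt_atTop 0).and
    (eventually_gt_atTop (τ (N - 1)))))))).exists
  refine ⟨τ' M, ?_, fun j => if j + 1 < N then QA j M else if j + 1 = N then QB M else QC M,
    ?_, ?_⟩
  · intro i j hij hj
    rcases Nat.lt_or_ge j N with hjN | hjN
    · rw [hτ'1 M i (by omega), hτ'1 M j hjN]
      exact hτ i j hij hjN
    · have hiM : i < N → τ i < M := by
        intro hi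
        rcases eq_or_lt_of_le (show i ≤ N - 1 by omega) with h | h
        · rw [h]; exact hMτ
        · exact (hτ i (N - 1) h (by omega)).trans hMτ
      have heM := hePos M hM0
      rcases eq_or_lt_of_le hjN with h | h
      · subst h
        rw [hτ'2, hτ'1 M i hij]
        exact hiM hij
      · have : j = N + 1 := by omega
        subst this
        rw [hτ'3]
        rcases Nat.lt_or_ge i N with hiN | hiN
        · rw [hτ'1 M i hiN]
          linarith [hiM hiN]
        · have : i = N := by omega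
          subst this
          rw [hτ'2]
          linarith
  · intro j hj
    simp only
    split_ifs with h1 h2
    · exact hA j (mem_range.mpr (by omega))
    · have : j = N - 1 := by omega
      subst this
      exact hB
    · have : j = N := by omega
      subst this
      exact hC
  · simp only
    rw [if_pos (by omega), hτ'1 M 0 (by omega)]
    exact hD

lemma exists_good (d : ℕ) (hd : 2 ≤ d) : ∃ τ, Good d (2 * d - 1) τ := by
  induction d, hd using Nat.le_induction with
  | base => exact good_base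
  | succ d hd ih =>
    obtain ⟨τ, hτ⟩ := ih
    have := good_step hd (by omega) hτ
    rwa [show 2 * d - 1 + 2 = 2 * (d + 1) - 1 by omega] at this

end Pool.Agent.CyclicIllum
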