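import Mathlib
import Pool.Agent.CyclicIllum.Core

set_option autoImplicit false

open Finset

namespace Pool.Agent.CyclicIllum

lemma exists_nonneg_functional {d m : ℕ} (hm : m ≤ d) (hd : 1 ≤ d)
    (v : Fin m → EuclideanSpace ℝ (Fin d)) :
    ∃ f : EuclideanSpace ℝ (Fin d) →ₗ[ℝ] ℝ, f ≠ 0 ∧ ∀ a, 0 ≤ f (v a) := by
  have hfin : Module.finrank ℝ (EuclideanSpace ℝ (Fin d)) = d := by simp
  cases m with
  | zero =>
    have hlt : (⊥ : Submodule ℝ (EuclideanSpace ℝ (Fin d))) < ⊤ := by
      have : Nontrivial (EuclideanSpace ℝ (Fin d)) :=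
        Module.nontrivial_of_finrank_pos (R := ℝ) (by omega)
      exact bot_lt_top
    obtain ⟨f, hf, -⟩ := Submodule.exists_le_ker_of_lt_top _ hlt
    exact ⟨f, hf, fun a => a.elim0⟩
  | succ m =>
    set p := Submodule.span ℝ (Set.range fun a : Fin m => v a.castSucc) with hp
    have hlt : p < ⊤ := by
      rw [lt_top_iff_ne_top]
      intro h
      have h1 : Module.finrank ℝ p ≤ m := by
        have := finrank_range_le_card (R := ℝ) (fun a : Fin m => v a.castSucc)
        simpa [Set.finrank, hp] using this
      rw [h, finrank_top, hfin] at h1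
      omega
    obtain ⟨f, hf, hker⟩ := Submodule.exists_le_ker_of_lt_top _ hlt
    have hzero : ∀ a : Fin m, f (v a.castSucc) = 0 := fun a => by
      have : v a.castSucc ∈ p := Submodule.subset_span ⟨a, rfl⟩
      exact LinearMap.mem_ker.mp (hker this)
    rcases le_total 0 (f (v (Fin.last m))) with h | h
    · refine ⟨f, hf, fun a => ?_⟩
      induction a using Fin.lastCases with
      | last => exact h
      | cast a => exact (hzero a).ge
    · refine ⟨-f, neg_ne_zero.mpr hf, fun a => ?_⟩
      induction a using Fin.lastCases with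
      | last => simpa using h
      | cast a => simp [hzero a]

/-- At least `d + 1` directions are needed. -/
theorem illuminable_ge {d n : ℕ} {t : Fin n → ℝ} (hd : 1 ≤ d) (hn : 1 ≤ n) {m : ℕ}
    (h : IlluminableBy (cyclicPolytope d t) m) : d + 1 ≤ m := by
  by_contra hcon
  obtain ⟨v, -, hv⟩ := h
  obtain ⟨f, hf, hfv⟩ := exists_nonneg_functional (show m ≤ d by omega) hd v
  have hcomp : IsCompact (cyclicPolytope d t) :=
    (Set.finite_range _).isCompact_convexHull ℝ
  have hcont : Continuous f := f.continuous_of_finiteDimensional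
  have hne : (cyclicPolytope d t).Nonempty := ⟨_, vertex_mem ⟨0, by omega⟩⟩
  obtain ⟨q, hq, hqmax⟩ := hcomp.exists_isMaxOn hne hcont.continuousOn
  have hint : ∀ p ∈ interior (cyclicPolytope d t), f p < f q := by
    intro p hp
    obtain ⟨w, hw⟩ : ∃ w, 0 < f w := by
      by_contra hcon
      push Not at hcon
      apply hf
      ext x
      have h1 := hcon x
      have h2 := hcon (-x)
      rw [map_neg] at h2
      rw [LinearMap.zero_apply]
      linarith
    have hcw : Continuous fun s : ℝ => p + s • w := by fun_prop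
    have hopen : IsOpen ((fun s : ℝ => p + s • w) ⁻¹' interior (cyclicPolytope d t)) :=
      isOpen_interior.preimage hcw
    have h0 : (0 : ℝ) ∈ (fun s : ℝ => p + s • w) ⁻¹' interior (cyclicPolytope d t) := by
      simpa using hp
    obtain ⟨ε, hε, hball⟩ := Metric.isOpen_iff.mp hopen 0 h0
    have hmem : (ε / 2) ∈ Metric.ball (0 : ℝ) ε := by
      rw [Metric.mem_ball, dist_zero_right, Real.norm_eq_abs, abs_of_pos (by linarith)]
      linarith
    have h1 := interior_subset (hball hmem)
    have h2 := hqmax h1
    simp only [Set.mem_ofPred_eq, map_add, map_smul, smul_eq_mul] at h2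
    have h3 : 0 < ε / 2 * f w := by positivity
    linarith
  have hqf : q ∈ frontier (cyclicPolytope d t) := by
    rw [frontier, isClosed_cyclic.closure_eq]
    exact ⟨hq, fun h => lt_irrefl _ (hint q h)⟩
  obtain ⟨a, s, hs, hmem⟩ := hv q hqf
  have h1 := hint _ hmem
  rw [map_add, map_smul, smul_eq_mul] at h1
  have := mul_nonneg hs.le (hfv a)
  linarith

end Pool.Agent.CyclicIllum
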