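import Mathlib
import Pool.Agent.CyclicIllum.Core

set_option autoImplicit false

open Finset

namespace Pool.Agent.CyclicIllum

/-- The coefficient of `f r` in the divided difference of `f` at `u 0, ..., u N`. -/
noncomputable def ddCoeff (u : ℕ → ℝ) (N r : ℕ) : ℝ :=
  ∏ s ∈ (range (N + 1)).erase r, (u r - u s)⁻¹

/-- The divided difference of `f` at `u 0, ..., u N`. -/
noncomputable def dd (u : ℕ → ℝ) (N : ℕ) (f : ℕ → ℝ) : ℝ :=
  ∑ r ∈ range (N + 1), ddCoeff u N r * f r

lemma ddCoeff_succ_left (u : ℕ → ℝ) (N r : ℕ) (hr : r ≤ N) :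
    ddCoeff u (N + 1) r = (u r - u (N + 1))⁻¹ * ddCoeff u N r := by
  unfold ddCoeff
  have h : (range (N + 1 + 1)).erase r = insert (N + 1) ((range (N + 1)).erase r) := by
    ext s; simp only [mem_erase, mem_range, mem_insert]; omega
  rw [h, prod_insert (by simp)]

lemma ddCoeff_succ_right (u : ℕ → ℝ) (N r : ℕ) (hr : r ≤ N) :
    ddCoeff u (N + 1) (r + 1) = (u (r + 1) - u 0)⁻¹ * ddCoeff (fun i => u (i + 1)) N r := by
  unfold ddCoeff
  have h : (range (N + 1 + 1)).erase (r + 1) =
      insert 0 (((range (N + 1)).erase r).map (addRightEmbedding 1)) := by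
    ext s
    simp only [mem_erase, mem_range, mem_insert, mem_map, addRightEmbedding_apply]
    constructor
    · intro h
      rcases Nat.eq_zero_or_pos s with h0 | h0
      · exact Or.inl h0
      · exact Or.inr ⟨s - 1, ⟨by omega, by omega⟩, by omega⟩
    · rintro (h | ⟨a, h1, h2⟩)
      · omega
      · omega
  rw [h, prod_insert (by simp), prod_map]
  rfl

lemma dd_succ (u : ℕ → ℝ) (N : ℕ) (f : ℕ → ℝ) (hu : ∀ i j, i < j → j ≤ N + 1 → u i < u j) :
    dd u (N + 1) f * (u (N + 1) - u 0) =
      dd (fun i => u (i + 1)) N (fun i => f (i + 1)) - dd u N f := by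
  unfold dd
  have h1 : ∑ r ∈ range (N + 1), ddCoeff (fun i => u (i + 1)) N r * f (r + 1) =
      ∑ r ∈ range (N + 1 + 1), ddCoeff u (N + 1) r * (u r - u 0) * f r := by
    rw [Finset.sum_range_succ' _ (N + 1)]
    simp only [sub_self, mul_zero, zero_mul, add_zero]
    refine Finset.sum_congr rfl fun r hr => ?_
    rw [mem_range] at hr
    rw [ddCoeff_succ_right u N r (by omega)]
    have := hu 0 (r + 1) (by omega) (by omega)
    have h2 : u (r + 1) - u 0 ≠ 0 := by linarith
    field_simp
  have h2 : ∑ r ∈ range (N + 1), ddCoeff u N r * f r =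
      ∑ r ∈ range (N + 1 + 1), ddCoeff u (N + 1) r * (u r - u (N + 1)) * f r := by
    rw [Finset.sum_range_succ _ (N + 1)]
    simp only [sub_self, mul_zero, zero_mul, add_zero]
    refine Finset.sum_congr rfl fun r hr => ?_
    rw [mem_range] at hr
    rw [ddCoeff_succ_left u N r (by omega)]
    have := hu r (N + 1) (by omega) (by omega)
    have h2 : u r - u (N + 1) ≠ 0 := by linarith
    field_simp
  rw [h1, h2, ← Finset.sum_sub_distrib, Finset.sum_mul]
  exact Finset.sum_congr rfl fun r _ => by ring

lemma dd_neg (u : ℕ → ℝ) (N : ℕ) (f : ℕ → ℝ) : dd u N (fun i => -f i) = -dd u N f := by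
  unfold dd
  rw [← Finset.sum_neg_distrib]
  exact Finset.sum_congr rfl fun r _ => by ring

lemma dd_sign (N : ℕ) : ∀ (u f : ℕ → ℝ), (∀ i j, i < j → j ≤ N + 1 → u i < u j) →
    (∀ m ≤ N, 0 ≤ (-1 : ℝ) ^ m * (f (m + 1) - f m)) → 0 ≤ (-1 : ℝ) ^ N * dd u (N + 1) f := by
  induction N with
  | zero =>
    intro u f hu hf
    have h := dd_succ u 0 f hu
    have h0 := hu 0 1 (by omega) (by omega)
    have h1 := hf 0 le_rfl
    simp only [dd, zero_add, range_one, sum_singleton, ddCoeff] at h
    simp only [pow_zero, one_mul, zero_add] at h1 ⊢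
    have h2 : (range 1).erase 0 = ∅ := by decide
    rw [show ({0} : Finset ℕ).erase 0 = ∅ by decide] at h
    simp only [prod_empty, one_mul] at h
    have h3 : dd u 1 f * (u 1 - u 0) = f 1 - f 0 := by
      simp only [dd, ddCoeff]
      exact h
    by_contra hneg
    push Not at hneg
    have := mul_neg_of_neg_of_pos hneg (sub_pos.mpr h0)
    linarith
  | succ N ih =>
    intro u f hu hf
    have h := dd_succ u (N + 1) f hu
    have h0 := hu 0 (N + 1 + 1) (by omega) le_rfl
    have h1 := ih u f (fun i j hij hj => hu i j hij (by omega)) (fun m hm => hf m (by omega))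
    have h2 := ih (fun i => u (i + 1)) (fun i => -f (i + 1))
      (fun i j hij hj => hu _ _ (by omega) (by omega)) (fun m hm => by
        have := hf (m + 1) (by omega)
        rw [pow_succ] at this
        linarith)
    rw [dd_neg] at h2
    by_contra hneg
    push Not at hneg
    have h3 := mul_neg_of_neg_of_pos hneg (sub_pos.mpr h0)
    rw [mul_assoc, h, pow_succ] at h3
    nlinarith


lemma ddCoeff_sign (u : ℕ → ℝ) (N r : ℕ) (hu : ∀ i j, i < j → j ≤ N → u i < u j) (hr : r ≤ N) :
    ddCoeff u N r = (-1 : ℝ) ^ (N + r) * |ddCoeff u N r| := by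
  unfold ddCoeff
  rw [Finset.abs_prod]
  have h1 : ∀ s ∈ (range (N + 1)).erase r, (u r - u s)⁻¹ =
      (if r < s then (-1 : ℝ) else 1) * |(u r - u s)⁻¹| := by
    intro s hs
    simp only [mem_erase, mem_range] at hs
    split_ifs with h
    · have := hu r s h (by omega)
      rw [abs_of_neg (inv_lt_zero.mpr (by linarith))]
      ring
    · have := hu s r (by omega) hr
      rw [abs_of_pos (inv_pos.mpr (by linarith))]
      ring
  rw [Finset.prod_congr rfl h1, Finset.prod_mul_distrib]
  congr 1
  rw [Finset.prod_ite, Finset.prod_const, Finset.prod_const_one, mul_one]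
  have h2 : filter (fun s => r < s) ((range (N + 1)).erase r) = Finset.Ioc r N := by
    ext s; simp only [mem_filter, mem_erase, mem_range, mem_Ioc]; omega
  rw [h2, Nat.card_Ioc]
  have h3 : N + r = N - r + 2 * r := by omega
  rw [h3, pow_add, pow_mul]
  simp

lemma dd_poly (u : ℕ → ℝ) (N : ℕ) (hu : ∀ i j, i < j → j ≤ N → u i < u j)
    (P : Polynomial ℝ) (hP : P.natDegree ≤ N) :
    dd u N (fun i => P.eval (u i)) = P.coeff N := by
  have hinj : Set.InjOn u (range (N + 1) : Set ℕ) := by
    intro i hi j hj hij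
    simp only [coe_range, Set.mem_Iio] at hi hj
    rcases lt_trichotomy i j with h | h | h
    · exact absurd hij (hu i j h (by omega)).ne
    · exact h
    · exact absurd hij (hu j i h (by omega)).ne'
  have h := Lagrange.coeff_eq_sum (s := range (N + 1)) (v := u) hinj (P := P) (by
    rw [card_range]
    refine lt_of_le_of_lt Polynomial.degree_le_natDegree ?_
    exact_mod_cast Nat.lt_succ_of_le hP)
  rw [card_range, Nat.add_sub_cancel] at h
  rw [h]
  unfold dd ddCoeff
  refine Finset.sum_congr rfl fun r _ => ?_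
  rw [Finset.prod_inv_distrib, div_eq_mul_inv, mul_comm]

/-- A monic polynomial of degree `d + 1` taking equal values at the ends of `d` disjoint
intervals, with alternating increments in between. -/
lemma exists_folding (d : ℕ) (hd : 1 ≤ d) (x : ℕ → ℝ)
    (hx : ∀ i j, i < j → j < 2 * d → x i < x j) :
    ∃ F : Polynomial ℝ, F.natDegree ≤ d + 1 ∧ F.coeff (d + 1) = 1 ∧
      (∀ j < d, F.eval (x (2 * j)) = F.eval (x (2 * j + 1))) ∧
      ∀ j, j + 1 < d →
        0 < (-1 : ℝ) ^ (d + 1 + j) * (F.eval (x (2 * j + 2)) - F.eval (x (2 * j + 1))) := by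
  let Φ : Polynomial.degreeLT ℝ (d + 2) →ₗ[ℝ] (Fin (d + 1) → ℝ) :=
    (LinearMap.pi fun j : Fin (d + 1) => Polynomial.leval (x (2 * j + 1)) -
      (if (j : ℕ) < d then Polynomial.leval (x (2 * j)) else 0)) ∘ₗ
      (Polynomial.degreeLT ℝ (d + 2)).subtype
  have hker : LinearMap.ker Φ ≠ ⊥ := by
    have : Module.Finite ℝ (Polynomial.degreeLT ℝ (d + 2)) :=
      Module.Finite.equiv (Polynomial.degreeLTEquiv ℝ (d + 2)).symm
    apply LinearMap.ker_ne_bot_of_finrank_lt
    rw [LinearEquiv.finrank_eq (Polynomial.degreeLTEquiv ℝ (d + 2))]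
    simp
  obtain ⟨⟨F, hF⟩, hFker, hF0⟩ := (Submodule.ne_bot_iff _).mp hker
  have hF0' : F ≠ 0 := fun h => hF0 (by simp [h])
  rw [LinearMap.mem_ker] at hFker
  have hval : ∀ j : Fin (d + 1), F.eval (x (2 * j + 1)) -
      (if (j : ℕ) < d then F.eval (x (2 * j)) else 0) = 0 := by
    intro j
    have := congrFun hFker j
    simp only [Φ, LinearMap.comp_apply, LinearMap.pi_apply, LinearMap.sub_apply,
      Polynomial.leval_apply, Submodule.subtype_apply, Pi.zero_apply] at this
    split_ifs at this ⊢ with h
    · simpa using this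
    · simpa using this
  have hdeg : F.natDegree ≤ d + 1 := by
    rw [Polynomial.mem_degreeLT] at hF
    have := (Polynomial.natDegree_lt_iff_degree_lt hF0').mpr hF
    omega
  have heq : ∀ j < d, F.eval (x (2 * j)) = F.eval (x (2 * j + 1)) := by
    intro j hj
    have := hval ⟨j, by omega⟩
    simp only [if_pos hj] at this
    linarith
  have hG0 : F.derivative ≠ 0 := by
    intro h
    have hnat := Polynomial.derivative_eq_zero.mp h
    rw [Polynomial.eq_C_of_natDegree_eq_zero hnat] at hF0' hval
    have := hval ⟨d, by omega⟩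
    simp only [lt_irrefl, if_false, Polynomial.eval_C, sub_zero] at this
    rw [this] at hF0'
    simp at hF0'
  have hroot : ∀ j, ∃ ξ, j < d → (x (2 * j) < ξ ∧ ξ < x (2 * j + 1) ∧ F.derivative.eval ξ = 0) := by
    intro j
    by_cases hj : j < d
    · obtain ⟨c, hc, hc'⟩ := exists_hasDerivAt_eq_zero (f := fun y => F.eval y)
        (f' := fun y => F.derivative.eval y) (hx (2 * j) (2 * j + 1) (by omega) (by omega))
        (F.continuous.continuousOn) (heq j hj) (fun y _ => F.hasDerivAt y)
      exact ⟨c, fun _ => ⟨hc.1, hc.2, hc'⟩⟩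
    · exact ⟨0, fun h => absurd h hj⟩
  choose ξ hξ using hroot
  have hξlt : ∀ i j, i < j → j < d → ξ i < ξ j := by
    intro i j hij hj
    have h1 := (hξ i (by omega)).2.1
    have h2 := (hξ j hj).1
    have h3 : x (2 * i + 1) < x (2 * j) := hx _ _ (by omega) (by omega)
    linarith
  have hdvd : (∏ j ∈ range d, (Polynomial.X - Polynomial.C (ξ j))) ∣ F.derivative := by
    apply Finset.prod_dvd_of_coprime
    · intro i hi j hj hij
      apply Polynomial.isCoprime_X_sub_C_of_isUnit_sub
      rw [isUnit_iff_ne_zero, sub_ne_zero]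
      simp only [coe_range, Set.mem_Iio] at hi hj
      rcases lt_or_gt_of_ne hij with h | h
      · exact (hξlt i j h hj).ne
      · exact (hξlt j i h hi).ne'
    · intro j hj
      rw [mem_range] at hj
      rw [Polynomial.dvd_iff_isRoot]
      exact (hξ j hj).2.2
  obtain ⟨H, hH⟩ := hdvd
  have hmonic : (∏ j ∈ range d, (Polynomial.X - Polynomial.C (ξ j))).Monic :=
    Polynomial.monic_prod_of_monic _ _ fun j _ => Polynomial.monic_X_sub_C _
  have hpdeg : (∏ j ∈ range d, (Polynomial.X - Polynomial.C (ξ j))).natDegree = d := by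
    rw [Polynomial.natDegree_prod_of_monic _ _ fun j _ => Polynomial.monic_X_sub_C _]
    simp
  have hH0 : H ≠ 0 := by
    rintro rfl
    rw [mul_zero] at hH
    exact hG0 hH
  have hHdeg : H.natDegree = 0 := by
    have h1 : F.derivative.natDegree ≤ d := by
      have := Polynomial.natDegree_derivative_le F
      omega
    rw [hH, Polynomial.natDegree_mul hmonic.ne_zero hH0, hpdeg] at h1
    omega
  obtain ⟨a, rfl⟩ : ∃ a, H = Polynomial.C a := ⟨_, Polynomial.eq_C_of_natDegree_eq_zero hHdeg⟩
  have ha : a ≠ 0 := by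
    rintro rfl
    simp at hH0
  have hcoef : F.derivative.coeff d = a := by
    rw [hH, Polynomial.coeff_mul_C]
    have := hmonic.coeff_natDegree
    rw [hpdeg] at this
    rw [this, one_mul]
  rw [Polynomial.coeff_derivative] at hcoef
  have hd1 : (0 : ℝ) < (d : ℝ) + 1 := by positivity
  have hlam : F.coeff (d + 1) ≠ 0 := by
    intro h
    rw [h, zero_mul] at hcoef
    exact ha hcoef.symm
  set c := F.coeff (d + 1) with hc
  refine ⟨Polynomial.C c⁻¹ * F, ?_, ?_, ?_, ?_⟩
  · exact (Polynomial.natDegree_C_mul_le _ _).trans hdeg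
  · rw [Polynomial.coeff_C_mul, ← hc, inv_mul_cancel₀ hlam]
  · intro j hj
    simp only [Polynomial.eval_mul, Polynomial.eval_C, heq j hj]
  · intro j hj
    have hlt := hx (2 * j + 1) (2 * j + 2) (by omega) (by omega)
    obtain ⟨η, hη, hη'⟩ := exists_hasDerivAt_eq_slope (fun y => F.eval y)
        (fun y => F.derivative.eval y) hlt
        (F.continuous.continuousOn) (fun y _ => F.hasDerivAt y)
    rw [eq_div_iff (by linarith)] at hη'
    simp only [Polynomial.eval_mul, Polynomial.eval_C, ← mul_sub, ← hη']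
    rw [hH, Polynomial.eval_mul, Polynomial.eval_C, ← hcoef, Polynomial.eval_prod]
    simp only [Polynomial.eval_sub, Polynomial.eval_X, Polynomial.eval_C]
    have hsign : 0 < (-1 : ℝ) ^ (d + 1 + j) * ∏ i ∈ range d, (η - ξ i) := by
      have h1 : ∀ i ∈ range d, η - ξ i = (if j < i then (-1 : ℝ) else 1) * |η - ξ i| := by
        intro i hi
        rw [mem_range] at hi
        split_ifs with h
        · have h2 := (hξ i hi).1
          have h3 : x (2 * j + 2) ≤ x (2 * i) := by
            rcases eq_or_lt_of_le (show 2 * j + 2 ≤ 2 * i by omega) with h4 | h4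
            · rw [h4]
            · exact (hx _ _ h4 (by omega)).le
          have h4 := hη.2
          rw [abs_of_neg (by linarith)]
          ring
        · have h2 := (hξ i hi).2.1
          have h3 : x (2 * i + 1) ≤ x (2 * j + 1) := by
            rcases eq_or_lt_of_le (show 2 * i + 1 ≤ 2 * j + 1 by omega) with h4 | h4
            · rw [h4]
            · exact (hx _ _ h4 (by omega)).le
          have h4 := hη.1
          rw [abs_of_pos (by linarith)]
          ring
      have hpos : 0 < ∏ i ∈ range d, |η - ξ i| := by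
        refine Finset.prod_pos fun i hi => abs_pos.mpr ?_
        rw [mem_range] at hi
        by_cases h : j < i
        · have h2 := (hξ i hi).1
          have h3 : x (2 * j + 2) ≤ x (2 * i) := by
            rcases eq_or_lt_of_le (show 2 * j + 2 ≤ 2 * i by omega) with h4 | h4
            · rw [h4]
            · exact (hx _ _ h4 (by omega)).le
          have h4 := hη.2
          exact (show η - ξ i < 0 by linarith).ne
        · have h2 := (hξ i hi).2.1
          have h3 : x (2 * i + 1) ≤ x (2 * j + 1) := by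
            rcases eq_or_lt_of_le (show 2 * i + 1 ≤ 2 * j + 1 by omega) with h4 | h4
            · rw [h4]
            · exact (hx _ _ h4 (by omega)).le
          have h4 := hη.1
          exact (show 0 < η - ξ i by linarith).ne'
      rw [Finset.prod_congr rfl h1, Finset.prod_mul_distrib, Finset.prod_ite, Finset.prod_const,
        Finset.prod_const_one, mul_one]
      have h2 : filter (fun s => j < s) (range d) = Finset.Ioc j (d - 1) := by
        ext s; simp only [mem_filter, mem_range, mem_Ioc]; omega
      rw [h2, Nat.card_Ioc, ← mul_assoc, ← pow_add]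
      have h3 : d + 1 + j + (d - 1 - j) = 2 * d := by omega
      rw [h3, pow_mul]
      simpa using hpos
    have h5 : c⁻¹ * ((∏ i ∈ range d, (η - ξ i)) * (c * ((d : ℝ) + 1)) *
        (x (2 * j + 2) - x (2 * j + 1))) =
        (∏ i ∈ range d, (η - ξ i)) * (((d : ℝ) + 1) * (x (2 * j + 2) - x (2 * j + 1))) := by
      field_simp
    rw [h5, ← mul_assoc]
    exact mul_pos hsign (mul_pos hd1 (by linarith))

/-- The indices `0, 2, ..., 2k, 2k+1, 2k+2, 2k+3, 2k+5, ...`. -/
def pick (k m : ℕ) : ℕ := if m ≤ k then 2 * m else if m ≤ k + 2 then k + m else 2 * m - 3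

lemma pick_lt {k i j : ℕ} (h : i < j) : pick k i < pick k j := by
  unfold pick; split_ifs <;> omega

lemma pick_lt_bound {d k m : ℕ} (hk : k + 1 < d) (hm : m ≤ d + 1) : pick k m < 2 * d := by
  unfold pick; split_ifs <;> omega

/-- Among `2 d` points, one of the `d - 1` gap pairs is linked. -/
lemma exists_gap (d : ℕ) (hd : 2 ≤ d) (x : ℕ → ℝ)
    (hx : ∀ i j, i < j → j < 2 * d → x i < x j) :
    ∃ k, k + 1 < d ∧
      ∑ r ∈ (range (d + 2)).filter (fun r => r ≠ k + 1 ∧ r ≠ k + 2),
          |ddCoeff (fun m => x (pick k m)) (d + 1) r| <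
        |ddCoeff (fun m => x (pick k m)) (d + 1) (k + 1)| +
        |ddCoeff (fun m => x (pick k m)) (d + 1) (k + 2)| := by
  obtain ⟨F, hFdeg, hFc, hFeq, hFpos⟩ := exists_folding d (by omega) x hx
  obtain ⟨k, hk, hkmin⟩ := Finset.exists_min_image (range (d - 1))
    (fun j => (-1 : ℝ) ^ (d + 1 + j) * (F.eval (x (2 * j + 2)) - F.eval (x (2 * j + 1))))
    ⟨0, by rw [mem_range]; omega⟩
  rw [mem_range] at hk
  have hkd : k + 1 < d := by omega
  refine ⟨k, hkd, ?_⟩
  set u : ℕ → ℝ := fun m => x (pick k m) with hu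
  have hX : 0 < (-1 : ℝ) ^ (d + 1 + k) * (F.eval (x (2 * k + 2)) - F.eval (x (2 * k + 1))) :=
    hFpos k hkd
  set X := (-1 : ℝ) ^ (d + 1 + k) * (F.eval (x (2 * k + 2)) - F.eval (x (2 * k + 1))) with hXdef
  have hmono : ∀ i j, i < j → j ≤ d + 1 → u i < u j := fun i j hij hj =>
    hx _ _ (pick_lt hij) (pick_lt_bound hkd hj)
  let s : ℕ → ℝ := fun m => if m = k + 1 ∨ m = k + 2 then -(-1) ^ m else (-1) ^ m
  have hkey := dd_sign d u (fun m => (-1 : ℝ) ^ (d + 1) * (2 / X) * F.eval (u m) + s m) hmono ?_
  · have hlin : dd u (d + 1) (fun m => (-1 : ℝ) ^ (d + 1) * (2 / X) * F.eval (u m) + s m) =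
        (-1 : ℝ) ^ (d + 1) * (2 / X) * dd u (d + 1) (fun m => F.eval (u m)) + dd u (d + 1) s := by
      unfold dd
      rw [Finset.mul_sum, ← Finset.sum_add_distrib]
      exact Finset.sum_congr rfl fun r _ => by ring
    rw [hlin, dd_poly u (d + 1) hmono F hFdeg, hFc, mul_one, mul_add, ← mul_assoc, ← pow_add] at hkey
    have hodd : (-1 : ℝ) ^ (d + (d + 1)) = -1 := Odd.neg_one_pow ⟨d, by ring⟩
    rw [hodd] at hkey
    have h2X : 0 < 2 / X := by positivity
    have hs : (-1 : ℝ) ^ d * dd u (d + 1) s =
        (|ddCoeff u (d + 1) (k + 1)| + |ddCoeff u (d + 1) (k + 2)|) -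
        ∑ r ∈ (range (d + 2)).filter (fun r => r ≠ k + 1 ∧ r ≠ k + 2), |ddCoeff u (d + 1) r| := by
      unfold dd
      rw [Finset.mul_sum]
      have hterm : ∀ r ∈ range (d + 1 + 1), (-1 : ℝ) ^ d * (ddCoeff u (d + 1) r * s r) =
          if r = k + 1 ∨ r = k + 2 then |ddCoeff u (d + 1) r| else -|ddCoeff u (d + 1) r| := by
        intro r hr
        rw [mem_range] at hr
        rw [ddCoeff_sign u (d + 1) r hmono (by omega), abs_mul, abs_pow, abs_neg, abs_one, one_pow,
          one_mul, abs_abs]
        have h1 : (-1 : ℝ) ^ d * ((-1) ^ (d + 1 + r) * |ddCoeff u (d + 1) r| * (-1) ^ r) =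
            -|ddCoeff u (d + 1) r| := by
          have : (-1 : ℝ) ^ d * ((-1) ^ (d + 1 + r) * |ddCoeff u (d + 1) r| * (-1) ^ r) =
              (-1 : ℝ) ^ (d + (d + 1 + r) + r) * |ddCoeff u (d + 1) r| := by
            rw [pow_add, pow_add]; ring
          rw [this, Odd.neg_one_pow ⟨d + r, by ring⟩]
          ring
        simp only [s]
        split_ifs with h
        · linear_combination -h1
        · exact h1
      rw [Finset.sum_congr rfl hterm, Finset.sum_ite, Finset.sum_neg_distrib, ← sub_eq_add_neg]
      have e1 : filter (fun r => r = k + 1 ∨ r = k + 2) (range (d + 1 + 1)) = {k + 1, k + 2} := by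
        ext r; simp only [mem_filter, mem_range, mem_insert, mem_singleton]; omega
      have e2 : filter (fun r => ¬(r = k + 1 ∨ r = k + 2)) (range (d + 1 + 1)) =
          filter (fun r => r ≠ k + 1 ∧ r ≠ k + 2) (range (d + 2)) := by
        ext r; simp only [mem_filter, mem_range]; omega
      rw [e1, e2, Finset.sum_pair (by omega)]
    linarith
  · intro m hm
    have hcase : m < k ∨ m = k ∨ m = k + 1 ∨ m = k + 2 ∨ k + 2 < m := by omega
    rcases hcase with h | h | h | h | h
    · have e1 : pick k (m + 1) = 2 * m + 2 := by unfold pick; split_ifs <;> omega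
      have e2 : pick k m = 2 * m := by unfold pick; split_ifs <;> omega
      have hmin := hkmin m (by rw [mem_range]; omega)
      simp only [s, u, e1, e2]
      rw [if_neg (by omega), if_neg (by omega), hFeq m (by omega)]
      have h3 : (-1 : ℝ) ^ m * ((-1) ^ (d + 1) * (2 / X) * F.eval (x (2 * m + 2)) + (-1) ^ (m + 1) -
          ((-1) ^ (d + 1) * (2 / X) * F.eval (x (2 * m + 1)) + (-1) ^ m)) =
          2 * (((-1 : ℝ) ^ (d + 1 + m) * (F.eval (x (2 * m + 2)) - F.eval (x (2 * m + 1)))) / X -
            (-1) ^ m * (-1) ^ m) := by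
        rw [pow_succ (-1 : ℝ) m, pow_add _ (d + 1) m]
        ring
      rw [h3, ← pow_add, Even.neg_one_pow ⟨m, rfl⟩]
      have h4 : 1 ≤ ((-1 : ℝ) ^ (d + 1 + m) * (F.eval (x (2 * m + 2)) -
          F.eval (x (2 * m + 1)))) / X := by
        rw [le_div_iff₀ hX, one_mul]
        exact hmin
      linarith
    · subst h
      have e1 : pick m (m + 1) = 2 * m + 1 := by unfold pick; split_ifs <;> omega
      have e2 : pick m m = 2 * m := by unfold pick; split_ifs <;> omega
      simp only [s, u, e1, e2]
      rw [if_pos (by simp), if_neg (by omega), hFeq m (by omega), pow_succ]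
      apply le_of_eq
      ring
    · subst h
      have e1 : pick k (k + 1 + 1) = 2 * k + 2 := by unfold pick; split_ifs <;> omega
      have e2 : pick k (k + 1) = 2 * k + 1 := by unfold pick; split_ifs <;> omega
      simp only [s, u, e1, e2]
      rw [if_pos (by simp), if_pos (by simp)]
      apply le_of_eq
      have h3 : (-1 : ℝ) ^ (k + 1) * ((-1) ^ (d + 1) * (2 / X) * F.eval (x (2 * k + 2)) +
          -(-1) ^ (k + 1 + 1) - ((-1) ^ (d + 1) * (2 / X) * F.eval (x (2 * k + 1)) +
          -(-1) ^ (k + 1))) =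
          -2 * (((-1 : ℝ) ^ (d + 1 + k) * (F.eval (x (2 * k + 2)) - F.eval (x (2 * k + 1)))) / X -
            (-1) ^ k * (-1) ^ k) := by
        rw [pow_succ (-1 : ℝ) (k + 1), pow_succ (-1 : ℝ) k, pow_add _ (d + 1) k]
        ring
      rw [h3, ← hXdef, div_self hX.ne', ← pow_add, Even.neg_one_pow ⟨k, rfl⟩]
      ring
    · subst h
      have e1 : pick k (k + 2 + 1) = 2 * k + 3 := by unfold pick; split_ifs <;> omega
      have e2 : pick k (k + 2) = 2 * k + 2 := by unfold pick; split_ifs <;> omega
      simp only [s, u, e1, e2]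
      have h5 := hFeq (k + 1) (by omega)
      rw [show 2 * (k + 1) = 2 * k + 2 by ring] at h5
      rw [if_neg (by omega), if_pos (by simp), h5, pow_succ _ (k + 2)]
      apply le_of_eq
      ring
    · obtain ⟨j, rfl⟩ : ∃ j, m = j + 2 := ⟨m - 2, by omega⟩
      have e1 : pick k (j + 2 + 1) = 2 * (j + 1) + 1 := by unfold pick; split_ifs <;> omega
      have e2 : pick k (j + 2) = 2 * j + 1 := by unfold pick; split_ifs <;> omega
      have hmin := hkmin j (by rw [mem_range]; omega)
      simp only [s, u, e1, e2]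
      rw [if_neg (by omega), if_neg (by omega), ← hFeq (j + 1) (by omega)]
      have h3 : (-1 : ℝ) ^ (j + 2) * ((-1) ^ (d + 1) * (2 / X) * F.eval (x (2 * (j + 1))) +
          (-1) ^ (j + 2 + 1) - ((-1) ^ (d + 1) * (2 / X) * F.eval (x (2 * j + 1)) +
          (-1) ^ (j + 2))) =
          2 * (((-1 : ℝ) ^ (d + 1 + j) * (F.eval (x (2 * j + 2)) - F.eval (x (2 * j + 1)))) / X -
            (-1) ^ j * (-1) ^ j) := by
        rw [pow_succ (-1 : ℝ) (j + 2), pow_add _ j 2, pow_add _ (d + 1) j,
          show 2 * (j + 1) = 2 * j + 2 by ring]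
        ring
      rw [h3, ← pow_add, Even.neg_one_pow ⟨j, rfl⟩]
      have h4 : 1 ≤ ((-1 : ℝ) ^ (d + 1 + j) * (F.eval (x (2 * j + 2)) -
          F.eval (x (2 * j + 1)))) / X := by
        rw [le_div_iff₀ hX, one_mul]
        exact hmin
      linarith

variable {d n : ℕ} {t : Fin n → ℝ}

lemma chain_linked (hd : 2 ≤ d) (ht : StrictMono t) (c : ℕ → Fin n)
    (hc : ∀ i j, i < j → j < 2 * d → c i < c j) :
    ∃ k, k + 1 < d ∧ Linked d t (c (2 * k + 1)) (c (2 * k + 2)) := by
  obtain ⟨k, hk, hlt⟩ := exists_gap d hd (fun m => t (c m))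
    (fun i j hij hj => ht (hc i j hij hj))
  refine ⟨k, hk, ?_⟩
  let g : ℕ → Fin n := fun m => c (pick k m)
  have hg : ∀ i j, i < j → j < d + 2 → g i < g j := fun i j hij hj =>
    hc _ _ (pick_lt hij) (pick_lt_bound hk (by omega))
  have hinj : ∀ i j, i < d + 2 → j < d + 2 → g i = g j → i = j := by
    intro i j hi hj hij
    rcases lt_trichotomy i j with h | h | h
    · exact absurd hij (hg i j h hj).ne
    · exact h
    · exact absurd hij (hg j i h hi).ne'
  have hp1 : pick k (k + 1) = 2 * k + 1 := by unfold pick; split_ifs <;> omega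
  have hp2 : pick k (k + 2) = 2 * k + 2 := by unfold pick; split_ifs <;> omega
  have hg1 : g (k + 1) = c (2 * k + 1) := by simp only [g, hp1]
  have hg2 : g (k + 2) = c (2 * k + 2) := by simp only [g, hp2]
  set A := (range (d + 2)).filter (fun r => r ≠ k + 1 ∧ r ≠ k + 2) with hA
  have hU : insert (c (2 * k + 1)) (insert (c (2 * k + 2)) (A.image g)) =
      (range (d + 2)).image g := by
    rw [← hg1, ← hg2, ← Finset.image_insert, ← Finset.image_insert]
    congr 1
    ext r
    simp only [hA, mem_insert, mem_filter, mem_range]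
    omega
  have hw : ∀ r, r < d + 2 → weight t ((range (d + 2)).image g) (g r) =
      |ddCoeff (fun m => t (c (pick k m))) (d + 1) r| := by
    intro r hr
    have he : ((range (d + 2)).image g).erase (g r) = ((range (d + 2)).erase r).image g := by
      ext y
      simp only [mem_erase, mem_image, mem_range]
      constructor
      · rintro ⟨h1, a, ha, rfl⟩
        exact ⟨a, ⟨fun h => h1 (by rw [h]), ha⟩, rfl⟩
      · rintro ⟨a, ⟨h1, ha⟩, rfl⟩
        exact ⟨fun h => h1 (hinj _ _ ha hr h), a, ha, rfl⟩
    unfold weight ddCoeff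
    rw [he, Finset.prod_image, Finset.abs_prod]
    · refine Finset.prod_congr rfl fun s _ => ?_
      rw [abs_inv]
    · intro a ha b hb hab
      simp only [coe_erase, coe_range, Set.mem_sdiff, Set.mem_Iio] at ha hb
      exact hinj _ _ ha.1 hb.1 hab
  refine ⟨A.image g, ?_, ?_, ?_⟩
  · rw [Finset.card_image_of_injOn]
    · have : A = ((range (d + 2)).erase (k + 1)).erase (k + 2) := by
        ext r; simp only [hA, mem_filter, mem_range, mem_erase]; omega
      rw [this, card_erase_of_mem, card_erase_of_mem, card_range]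
      · omega
      · simp only [mem_range]; omega
      · simp only [mem_erase, mem_range]; omega
    · intro a ha b hb hab
      simp only [hA, coe_filter, mem_range, Set.mem_ofPred_eq] at ha hb
      exact hinj _ _ ha.1 hb.1 hab
  · intro y hy
    simp only [hA, mem_image, mem_filter, mem_range] at hy
    obtain ⟨r, ⟨hr, hr1, hr2⟩, rfl⟩ := hy
    rcases Nat.lt_or_ge r (k + 1) with h | h
    · left
      rw [← hg1]
      exact hg _ _ h (by omega)
    · right
      rw [← hg2]
      exact hg _ _ (by omega) hr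
  · rw [hU, Finset.sum_image]
    · rw [← hg1, ← hg2, hw _ (by omega), hw _ (by omega)]
      rw [Finset.sum_congr rfl (fun r hr => hw r ?_)]
      · exact hlt
      · simp only [hA, mem_filter, mem_range] at hr
        exact hr.1
    · intro a ha b hb hab
      simp only [hA, coe_filter, mem_range, Set.mem_ofPred_eq] at ha hb
      exact hinj _ _ ha.1 hb.1 hab

/-- Greedy decomposition of the indices `≥ a` into `m` blocks, or a chain of `m + 1` indices
whose consecutive members are not linked. -/
lemma greedy (d : ℕ) {n : ℕ} (t : Fin n → ℝ) (m : ℕ) : ∀ a : Fin n,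
    (∃ f : Fin n → ℕ, Monotone f ∧ (∀ j, a ≤ j → f j < m) ∧
      ∀ i k, a ≤ i → i < k → f i = f k → (∀ j, a ≤ j → f j = f i → i ≤ j ∧ j ≤ k) →
        Linked d t i k) ∨
    ∃ c : ℕ → Fin n, c 0 = a ∧ ∀ j < m, c j < c (j + 1) ∧ ¬ Linked d t (c j) (c (j + 1)) := by
  classical
  induction m with
  | zero => exact fun a => Or.inr ⟨fun _ => a, rfl, fun j hj => absurd hj (by omega)⟩
  | succ m ih =>
    intro a
    by_cases hall : ∀ k, a < k → Linked d t a k
    · left
      refine ⟨fun _ => 0, monotone_const, fun _ _ => Nat.succ_pos m, fun i k hai hik _ hfl => ?_⟩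
      have hia := (hfl a le_rfl rfl).1
      have : i = a := le_antisymm hia hai
      subst this
      exact hall k hik
    · push Not at hall
      obtain ⟨b0, hab0, hb0⟩ := hall
      obtain ⟨b, hb, hbmin⟩ := Finset.exists_min_image
        (Finset.univ.filter fun k => a < k ∧ ¬ Linked d t a k) (fun k => k)
        ⟨b0, Finset.mem_filter.mpr ⟨Finset.mem_univ _, hab0, hb0⟩⟩
      simp only [Finset.mem_filter, Finset.mem_univ, true_and] at hb hbmin
      rcases ih b with ⟨f, hf, hfm, hfl⟩ | ⟨c, hc0, hc⟩
      · left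
        refine ⟨fun j => if j < b then 0 else f j + 1, ?_, ?_, ?_⟩
        · intro i j hij
          simp only
          split_ifs with h1 h2 h2
          · exact le_rfl
          · exact Nat.zero_le _
          · exact absurd (lt_of_le_of_lt hij h2) h1
          · exact Nat.succ_le_succ (hf hij)
        · intro j hj
          simp only
          split_ifs with h1
          · exact Nat.succ_pos m
          · exact Nat.succ_lt_succ (hfm j (not_lt.mp h1))
        · intro i k hai hik heq hfl'
          simp only at heq hfl'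
          by_cases hib : i < b
          · rw [if_pos hib] at heq hfl'
            have hkb : k < b := by
              by_contra h
              rw [if_neg h] at heq
              omega
            have hia := (hfl' a le_rfl (by rw [if_pos hb.1])).1
            have : i = a := le_antisymm hia hai
            subst this
            by_contra hnot
            exact absurd (hbmin k ⟨hik, hnot⟩) (not_le.mpr hkb)
          · have hkb : ¬ k < b := fun h => hib (hik.trans h)
            rw [if_neg hib] at heq hfl'
            rw [if_neg hkb] at heq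
            refine hfl i k (not_lt.mp hib) hik (by omega) fun j hj hfj => ?_
            exact hfl' j (hb.1.le.trans hj) (by rw [if_neg (not_lt.mpr hj), hfj])
      · right
        refine ⟨fun j => Nat.casesOn j a c, rfl, fun j hj => ?_⟩
        cases j with
        | zero => exact ⟨by simpa [hc0] using hb.1, by simpa [hc0] using hb.2⟩
        | succ j => exact hc j (by omega)

/-- Every cyclic polytope in dimension `d` is illuminated by `2 d - 1` directions. -/
theorem blockPartition_two_mul (hd : 2 ≤ d) (hn : d + 1 ≤ n) (ht : StrictMono t) :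
    BlockPartition d t (2 * d - 1) := by
  rcases greedy d t (2 * d - 1) ⟨0, by omega⟩ with ⟨f, hf, hfm, hfl⟩ | ⟨c, -, hc⟩
  · refine ⟨fun j => ⟨f j, hfm j (Fin.mk_le_of_le_val (Nat.zero_le _))⟩, fun i j hij => hf hij, ?_⟩
    intro i k hik heq hfl'
    refine hfl i k (Fin.mk_le_of_le_val (Nat.zero_le _)) hik (by simpa using heq) fun j _ hfj => ?_
    exact hfl' j (by simpa using hfj)
  · exfalso
    have hmono : ∀ i j, i < j → j < 2 * d → c i < c j := by
      intro i j hij
      induction j with
      | zero => omega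
      | succ j ih =>
        intro hj
        rcases Nat.lt_succ_iff_lt_or_eq.mp hij with h | h
        · exact (ih h (by omega)).trans (hc j (by omega)).1
        · subst h
          exact (hc i (by omega)).1
    obtain ⟨k, hk, hlink⟩ := chain_linked hd ht c hmono
    exact (hc (2 * k + 1) (by omega)).2 hlink

end Pool.Agent.CyclicIllum
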