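import Mathlib
import Pool.Agent.CyclicIllum.Upper
import Pool.Agent.CyclicIllum.Lower
import Pool.Agent.CyclicIllum.Config

set_option autoImplicit false

open Finset Polynomial Filter Topology

namespace Pool.Agent.CyclicIllum

lemma not_linked_of_poly {d n : ℕ} {t : Fin n → ℝ} (hn : d + 1 ≤ n) (ht : StrictMono t)
    {i k : Fin n} (hik : i < k) (p : ℝ[X]) (hp : p.natDegree ≤ d)
    (h1 : ∀ j, p.eval (t i) ≤ p.eval (t j)) (h2 : ∀ j, p.eval (t j) ≤ p.eval (t k))
    (hlt : p.eval (t i) < p.eval (t k)) : ¬ Linked d t i k := by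
  intro hl
  obtain ⟨v, hv⟩ := joint_of_linked hn ht hik hl
  obtain ⟨a, ha, ha0, hav⟩ := (illuminates_iff hn ht.injective v i).mp (hv i le_rfl hik.le)
  obtain ⟨b, hb, hb0, hbv⟩ := (illuminates_iff hn ht.injective v k).mp (hv k hik.le le_rfl)
  have hrel := relation_eval (fun j => a j - b j) (relation_pow (d := d) (t := t) _
    (by rw [Finset.sum_sub_distrib, ha0, hb0, sub_zero])
    (by simp only [sub_smul, Finset.sum_sub_distrib]; rw [hav, hbv, sub_self])) p hp
  simp only [sub_mul, Finset.sum_sub_distrib] at hrel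
  have hA : 0 < ∑ j, a j * p.eval (t j) := by
    have h3 : ∑ j, a j * p.eval (t j) = ∑ j, a j * (p.eval (t j) - p.eval (t i)) := by
      simp only [mul_sub, Finset.sum_sub_distrib]
      rw [← Finset.sum_mul, ha0, zero_mul, sub_zero]
    rw [h3]
    refine Finset.sum_pos' (fun j _ => ?_) ⟨k, Finset.mem_univ _, ?_⟩
    · by_cases hj : j = i
      · simp [hj]
      · exact mul_nonneg (ha j hj).le (by linarith [h1 j])
    · exact mul_pos (ha k hik.ne') (by linarith)
  have hB : ∑ j, b j * p.eval (t j) ≤ 0 := by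
    have h3 : ∑ j, b j * p.eval (t j) = ∑ j, b j * (p.eval (t j) - p.eval (t k)) := by
      simp only [mul_sub, Finset.sum_sub_distrib]
      rw [← Finset.sum_mul, hb0, zero_mul, sub_zero]
    rw [h3]
    refine Finset.sum_nonpos (fun j _ => ?_)
    by_cases hj : j = k
    · simp [hj]
    · exact mul_nonpos_of_nonneg_of_nonpos (hb j hj).le (by linarith [h2 j])
  linarith

/-- The points `τ 0, τ 0 + δ, ..., τ 0 + r δ, τ 1, τ 2, ...`. -/
noncomputable def cluster {n : ℕ} (r : ℕ) (τ : ℕ → ℝ) (δ : ℝ) (j : Fin n) : ℝ :=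
  if (j : ℕ) ≤ r then τ 0 + δ * (j : ℕ) else τ (j - r)

lemma cluster_tendsto {n : ℕ} (r : ℕ) (τ : ℕ → ℝ) (j : Fin n) :
    Tendsto (fun δ => cluster r τ δ j) (𝓝[>] 0) (𝓝 (cluster r τ 0 j)) := by
  unfold cluster
  split_ifs with h
  · have : Tendsto (fun δ : ℝ => τ 0 + δ * (j : ℕ)) (𝓝 0) (𝓝 (τ 0 + 0 * (j : ℕ))) :=
      Continuous.tendsto (by fun_prop) 0
    exact this.mono_left nhdsWithin_le_nhds
  · exact tendsto_const_nhds

lemma cluster_lt {n r N : ℕ} {τ : ℕ → ℝ} (hτ : ∀ i j, i < j → j < N → τ i < τ j)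
    (hnr : n ≤ r + N) {i j : Fin n} (hij : i < j) (hj : r < (j : ℕ)) :
    cluster r τ 0 i < cluster r τ 0 j := by
  have hij' : (i : ℕ) < j := hij
  have hjn := j.isLt
  unfold cluster
  rw [if_neg (by omega : ¬ (j : ℕ) ≤ r)]
  split_ifs with h
  · rw [zero_mul, add_zero]
    exact hτ 0 _ (by omega) (by omega)
  · exact hτ _ _ (by omega) (by omega)

lemma cluster_strictMono {n r N : ℕ} {τ : ℕ → ℝ} (hτ : ∀ i j, i < j → j < N → τ i < τ j)
    (hnr : n ≤ r + N) : ∀ᶠ δ in 𝓝[>] (0 : ℝ), StrictMono (cluster (n := n) r τ δ) := by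
  have h1 : ∀ i ∈ (Finset.univ : Finset (Fin n)), ∀ᶠ δ in 𝓝[>] (0 : ℝ),
      ∀ j ∈ (Finset.univ : Finset (Fin n)), i < j →
        cluster (n := n) r τ δ i < cluster r τ δ j := by
    intro i _
    refine (Filter.eventually_all_finset _).mpr fun j _ => ?_
    by_cases hij : i < j
    · by_cases hj : (j : ℕ) ≤ r
      · filter_upwards [self_mem_nhdsWithin] with δ hδ _
        have hδ' : 0 < δ := hδ
        have hij' : (i : ℕ) < j := hij
        unfold cluster
        rw [if_pos hj, if_pos (by omega)]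
        have : ((i : ℕ) : ℝ) < (j : ℕ) := by exact_mod_cast hij'
        nlinarith
      · filter_upwards [(cluster_tendsto r τ i).eventually_lt (cluster_tendsto r τ j)
          (cluster_lt hτ hnr hij (by omega))] with δ hδ _
        exact hδ
    · exact Eventually.of_forall fun δ h => absurd h hij
  filter_upwards [(Filter.eventually_all_finset _).mpr h1] with δ hδ
  exact fun i j hij => hδ i (Finset.mem_univ _) j (Finset.mem_univ _) hij

lemma cluster_linked {d n r N : ℕ} (hr : 1 ≤ r) (hrn : r + d < n) {τ : ℕ → ℝ}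
    (hτ : ∀ i j, i < j → j < N → τ i < τ j) (hnr : n ≤ r + N) :
    ∀ᶠ δ in 𝓝[>] (0 : ℝ), Linked d (cluster (n := n) r τ δ) ⟨0, by omega⟩ ⟨r, by omega⟩ := by
  set z : Fin n := ⟨0, by omega⟩ with hz
  set ρ : Fin n := ⟨r, by omega⟩ with hρ
  set S : Finset (Fin n) := Finset.univ.filter (fun j => r < (j : ℕ) ∧ (j : ℕ) ≤ r + d) with hS
  have hmemS : ∀ x, x ∈ S ↔ r < (x : ℕ) ∧ (x : ℕ) ≤ r + d := fun x => by simp [hS]
  have hzS : z ∉ S := fun h => by have := (hmemS z).mp h; simp [hz] at this
  have hρS : ρ ∉ S := fun h => by have := (hmemS ρ).mp h; simp [hρ] at this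
  have hzρ : z ≠ ρ := fun h => by
    have := congrArg Fin.val h
    simp only [hz, hρ] at this
    omega
  have hcard : S.card = d := by
    have : S.map Fin.valEmbedding = Finset.Ioc r (r + d) := by
      ext a
      simp only [Finset.mem_map, hmemS, Fin.valEmbedding_apply, Finset.mem_Ioc]
      constructor
      · rintro ⟨x, hx, rfl⟩
        exact hx
      · rintro ⟨h1, h2⟩
        exact ⟨⟨a, by omega⟩, ⟨h1, h2⟩, rfl⟩
    rw [← Finset.card_map Fin.valEmbedding, this, Nat.card_Ioc]
    omega
  set U : Finset (Fin n) := insert z (insert ρ S) with hU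
  -- the weights of `S` converge
  have hlim : Tendsto (fun δ => ∑ x ∈ S, weight (cluster (n := n) r τ δ) U x) (𝓝[>] 0)
      (𝓝 (∑ x ∈ S, weight (cluster (n := n) r τ 0) U x)) := by
    refine tendsto_finsetSum _ fun x hx => ?_
    unfold weight
    refine tendsto_finsetProd _ fun y hy => ?_
    have hx' := (hmemS x).mp hx
    have hne : cluster (n := n) r τ 0 x - cluster r τ 0 y ≠ 0 := by
      rw [sub_ne_zero]
      rcases lt_trichotomy y x with h | h | h
      · exact (cluster_lt hτ hnr h hx'.1).ne'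
      · exact absurd h (Finset.ne_of_mem_erase hy)
      · exact (cluster_lt hτ hnr h (lt_trans hx'.1 h)).ne
    exact (((cluster_tendsto r τ x).sub (cluster_tendsto r τ y)).abs).inv₀ (abs_ne_zero.mpr hne)
  -- the weight of `z` tends to infinity
  set B := ∏ y ∈ S, |τ 0 - τ (y - r)|⁻¹ with hB
  have hBpos : 0 < B := by
    refine Finset.prod_pos fun y hy => inv_pos.mpr (abs_pos.mpr ?_)
    have hy' := (hmemS y).mp hy
    have hyn := y.isLt
    have := hτ 0 (y - r) (by omega) (by omega)
    linarith
  have hwz : ∀ δ > 0, weight (cluster (n := n) r τ δ) U z = (δ * r)⁻¹ * B := by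
    intro δ hδ
    unfold weight
    have he : U.erase z = insert ρ S := by
      rw [hU, Finset.erase_insert]
      rw [Finset.mem_insert, not_or]
      exact ⟨hzρ, hzS⟩
    rw [he, Finset.prod_insert hρS]
    congr 1
    · simp only [cluster, hz, hρ, Nat.zero_le, if_true, le_refl, Nat.cast_zero, mul_zero, add_zero]
      have h1 : τ 0 - (τ 0 + δ * (r : ℝ)) = -(δ * r) := by ring
      rw [h1, abs_neg, abs_of_pos]
      have : (0 : ℝ) < r := by exact_mod_cast hr
      positivity
    · refine Finset.prod_congr rfl fun y hy => ?_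
      have hy' := (hmemS y).mp hy
      simp only [cluster, hz, Nat.zero_le, if_true, Nat.cast_zero, mul_zero, add_zero]
      rw [if_neg (by omega)]
  have hinf : Tendsto (fun δ : ℝ => (δ * r)⁻¹ * B) (𝓝[>] 0) atTop := by
    apply Tendsto.atTop_mul_const hBpos
    have h1 : Tendsto (fun δ : ℝ => δ * (r : ℝ)) (𝓝[>] 0) (𝓝[>] 0) := by
      rw [tendsto_nhdsWithin_iff]
      refine ⟨?_, ?_⟩
      · have : Tendsto (fun δ : ℝ => δ * (r : ℝ)) (𝓝 0) (𝓝 (0 * (r : ℝ))) :=
          Continuous.tendsto (by fun_prop) 0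
        rw [zero_mul] at this
        exact this.mono_left nhdsWithin_le_nhds
      · filter_upwards [self_mem_nhdsWithin] with δ hδ
        have h2 : (0 : ℝ) < r := by exact_mod_cast hr
        exact mul_pos hδ h2
    exact tendsto_inv_nhdsGT_zero.comp h1
  filter_upwards [hlim.eventually_lt_const (lt_add_one _),
    hinf.eventually_gt_atTop (∑ x ∈ S, weight (cluster (n := n) r τ 0) U x + 1),
    self_mem_nhdsWithin, cluster_strictMono hτ hnr] with δ h1 h2 h3 h4
  refine ⟨S, hcard, fun x hx => Or.inr ?_, ?_⟩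
  · rw [Fin.lt_def]
    exact ((hmemS x).mp hx).1
  · have h5 := weight_pos h4.injective U ρ
    have h6 := hwz δ h3
    change ∑ x ∈ S, weight (cluster r τ δ) U x <
      weight (cluster r τ δ) U z + weight (cluster r τ δ) U ρ
    rw [h6]
    linarith

/-- Configurations with prescribed block number. -/
lemma exists_config {d n m : ℕ} (hd : 2 ≤ d) (hm : d + 1 ≤ m) (hmn : m ≤ n)
    (hm2 : m ≤ 2 * d - 1) :
    ∃ t : Fin n → ℝ, StrictMono t ∧ BlockPartition d t m ∧
      ∀ m', BlockPartition d t m' → m ≤ m' := by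
  obtain ⟨τ, hτ, q, hq, hder⟩ := exists_good d hd
  obtain ⟨r, rfl⟩ : ∃ r, n = r + m := ⟨n - m, by omega⟩
  have hnr : r + m ≤ r + (2 * d - 1) := by omega
  -- unlinked pairs
  have hE1 : ∀ᶠ δ in 𝓝[>] (0 : ℝ), ∀ i ∈ (Finset.univ : Finset (Fin (r + m))),
      (q 0).eval (cluster r τ δ (⟨0, by omega⟩ : Fin (r + m))) ≤ (q 0).eval (cluster r τ δ i) ∧
      (q 0).eval (cluster r τ δ i) ≤
        (q 0).eval (cluster r τ δ (⟨r + 1, by omega⟩ : Fin (r + m))) := by
    refine (Filter.eventually_all_finset _).mpr fun i _ => ?_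
    obtain ⟨h1, h2, h3⟩ := hq 0 (by omega)
    have hz : ∀ δ, cluster r τ δ (⟨0, by omega⟩ : Fin (r + m)) = τ 0 := fun δ => by
      simp [cluster]
    have h1' : ∀ δ, cluster r τ δ (⟨r + 1, by omega⟩ : Fin (r + m)) = τ 1 := fun δ => by
      simp [cluster]
    simp only [hz, h1']
    by_cases hi : (i : ℕ) ≤ r
    · have hci : ∀ δ, cluster r τ δ i = τ 0 + δ * (i : ℕ) := fun δ => if_pos hi
      simp only [hci]
      have ht : Tendsto (fun δ : ℝ => τ 0 + δ * (i : ℕ)) (𝓝[>] 0) (𝓝 (τ 0)) := by
        have : Tendsto (fun δ : ℝ => τ 0 + δ * (i : ℕ)) (𝓝 0) (𝓝 (τ 0 + 0 * (i : ℕ))) :=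
          Continuous.tendsto (by fun_prop) 0
        rw [zero_mul, add_zero] at this
        exact this.mono_left nhdsWithin_le_nhds
      have hB : ∀ᶠ δ in 𝓝[>] (0 : ℝ), (q 0).eval (τ 0 + δ * (i : ℕ)) < (q 0).eval (τ 1) :=
        (((q 0).continuous.tendsto _).comp ht).eventually_lt_const (by simpa using h2)
      have hA : ∀ᶠ δ in 𝓝[>] (0 : ℝ), (q 0).eval (τ 0) ≤ (q 0).eval (τ 0 + δ * (i : ℕ)) := by
        rcases Nat.eq_zero_or_pos (i : ℕ) with h0 | h0
        · exact Eventually.of_forall fun δ => by rw [h0]; simp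
        · have hd' : HasDerivAt (fun δ : ℝ => (q 0).eval (τ 0 + δ * (i : ℕ)))
              ((q 0).derivative.eval (τ 0) * (i : ℕ)) 0 := by
            have e1 : HasDerivAt (fun δ : ℝ => τ 0 + δ * ((i : ℕ) : ℝ)) ((i : ℕ) : ℝ) 0 := by
              simpa using ((hasDerivAt_id (0 : ℝ)).mul_const ((i : ℕ) : ℝ)).const_add (τ 0)
            have e2 := (q 0).hasDerivAt (τ 0 + 0 * ((i : ℕ) : ℝ))
            have e3 := e2.comp (0 : ℝ) e1
            simp only [zero_mul, add_zero] at e3
            exact e3
          have hpos : 0 < (q 0).derivative.eval (τ 0) * ((i : ℕ) : ℝ) := by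
            have : (0 : ℝ) < (i : ℕ) := by exact_mod_cast h0
            positivity
          have e4 := hd'.tendsto_slope
          have e5 : ∀ᶠ δ in 𝓝[≠] (0 : ℝ),
              0 < slope (fun δ : ℝ => (q 0).eval (τ 0 + δ * (i : ℕ))) 0 δ :=
            e4.eventually_const_lt hpos
          have e6 : ∀ᶠ δ in 𝓝[>] (0 : ℝ),
              0 < slope (fun δ : ℝ => (q 0).eval (τ 0 + δ * (i : ℕ))) 0 δ :=
            e5.filter_mono (nhdsWithin_mono _ (fun x hx => ne_of_gt hx))
          filter_upwards [e6, self_mem_nhdsWithin] with δ h4 h5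
          have h5' : 0 < δ := h5
          rw [slope_def_field, sub_zero, lt_div_iff₀ h5', zero_mul, zero_mul, add_zero] at h4
          linarith
      filter_upwards [hA, hB] with δ h4 h5
      exact ⟨h4, h5.le⟩
    · have hci : ∀ δ, cluster r τ δ i = τ (i - r) := fun δ => if_neg hi
      simp only [hci]
      refine Eventually.of_forall fun δ => ?_
      by_cases hi1 : (i : ℕ) - r = 1
      · rw [hi1]
        exact ⟨by simpa using h2.le, le_rfl⟩
      · have := h3 (i - r) (by omega) (by omega) (by omega)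
        exact ⟨this.1.le, by simpa using this.2.le⟩
  have hE2 : ∀ᶠ δ in 𝓝[>] (0 : ℝ), ∀ j ∈ Finset.range (m - 1), 1 ≤ j →
      ∀ i ∈ (Finset.univ : Finset (Fin (r + m))),
      (q j).eval (τ j) ≤ (q j).eval (cluster r τ δ i) ∧
      (q j).eval (cluster r τ δ i) ≤ (q j).eval (τ (j + 1)) := by
    refine (Filter.eventually_all_finset _).mpr fun j hj => ?_
    rw [Finset.mem_range] at hj
    by_cases hj1 : 1 ≤ j
    · have key : ∀ᶠ δ in 𝓝[>] (0 : ℝ), ∀ i ∈ (Finset.univ : Finset (Fin (r + m))),
          (q j).eval (τ j) ≤ (q j).eval (cluster r τ δ i) ∧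
          (q j).eval (cluster r τ δ i) ≤ (q j).eval (τ (j + 1)) := by
        refine (Filter.eventually_all_finset _).mpr fun i _ => ?_
        obtain ⟨h1, h2, h3⟩ := hq j (by omega)
        by_cases hi : (i : ℕ) ≤ r
        · have h4 := h3 0 (by omega) (by omega) (by omega)
          have h5 := cluster_tendsto r τ i
          have h6 : cluster r τ 0 i = τ 0 := by simp [cluster, hi]
          rw [h6] at h5
          have h7 := (((q j).continuous.tendsto _).comp h5)
          filter_upwards [h7.eventually_const_lt h4.1, h7.eventually_lt_const h4.2] with δ h8 h9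
          exact ⟨h8.le, h9.le⟩
        · have hci : ∀ δ, cluster r τ δ i = τ (i - r) := fun δ => if_neg hi
          simp only [hci]
          refine Eventually.of_forall fun δ => ?_
          by_cases e1 : (i : ℕ) - r = j
          · rw [e1]; exact ⟨le_rfl, h2.le⟩
          · by_cases e2 : (i : ℕ) - r = j + 1
            · rw [e2]; exact ⟨h2.le, le_rfl⟩
            · have := h3 (i - r) (by omega) e1 e2
              exact ⟨this.1.le, this.2.le⟩
      filter_upwards [key] with δ hδ _
      exact hδ
    · exact Eventually.of_forall fun δ h => absurd h hj1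
  have hE3 : ∀ᶠ δ in 𝓝[>] (0 : ℝ), 1 ≤ r → Linked d (cluster (n := r + m) r τ δ)
      ⟨0, by omega⟩ ⟨r, by omega⟩ := by
    by_cases hr : 1 ≤ r
    · filter_upwards [cluster_linked (d := d) (n := r + m) hr (by omega) hτ hnr] with δ hδ _
      exact hδ
    · exact Eventually.of_forall fun δ h => absurd h hr
  obtain ⟨δ, h1, h2, h3, hmono⟩ := (hE1.and (hE2.and (hE3.and (cluster_strictMono hτ hnr)))).exists
  refine ⟨cluster r τ δ, hmono, ?_, ?_⟩
  · -- the blocks
    refine ⟨fun j => if h : (j : ℕ) ≤ r then ⟨0, by omega⟩ else ⟨j - r, by omega⟩, ?_, ?_⟩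
    · intro i j hij
      have hij' : (i : ℕ) ≤ j := hij
      simp only
      split_ifs with g1 g2
      · exact le_rfl
      · rw [Fin.le_def]; exact Nat.zero_le _
      · omega
      · rw [Fin.le_def]
        simp only
        omega
    · intro i k hik heq hfl
      have hik' : (i : ℕ) < k := hik
      simp only at heq hfl
      by_cases hk : (k : ℕ) ≤ r
      · have hi : (i : ℕ) ≤ r := by omega
        rw [dif_pos hi] at hfl
        have e1 := (hfl ⟨0, by omega⟩ (by rw [dif_pos (Nat.zero_le _)])).1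
        have e2 := (hfl ⟨r, by omega⟩ (by rw [dif_pos le_rfl])).2
        rw [Fin.le_def] at e1 e2
        simp only at e1 e2
        have e3 : i = ⟨0, by omega⟩ := Fin.ext (by simp only; omega)
        have e4 : k = ⟨r, by omega⟩ := Fin.ext (by simp only; omega)
        have h5 := h3 (by omega)
        convert h5
      · exfalso
        rw [dif_neg hk] at heq
        split_ifs at heq with g1
        · have := congrArg Fin.val heq
          simp only at this
          omega
        · have := congrArg Fin.val heq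
          simp only at this
          omega
  · rintro m' ⟨f, hf, hfl⟩
    have hn' : d + 1 ≤ r + m := by omega
    -- consecutive representatives are in different blocks
    have hsep : ∀ i k : Fin (r + m), i < k → ¬ Linked d (cluster r τ δ) i k → f i < f k := by
      intro i k hik hnl
      refine lt_of_le_of_ne (hf hik.le) fun heq => hnl ?_
      obtain ⟨i', hi', hi'min⟩ := Finset.exists_min_image
        (Finset.univ.filter fun j => f j = f i) (fun j => j)
        ⟨i, by simp⟩
      obtain ⟨k', hk', hk'max⟩ := Finset.exists_max_image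
        (Finset.univ.filter fun j => f j = f i) (fun j => j)
        ⟨i, by simp⟩
      simp only [Finset.mem_filter, Finset.mem_univ, true_and] at hi' hk' hi'min hk'max
      have e1 : i' ≤ i := hi'min i rfl
      have e2 : k ≤ k' := hk'max k heq.symm
      have e3 : i' < k' := lt_of_le_of_lt e1 (lt_of_lt_of_le hik e2)
      have hlk := hfl i' k' e3 (hi'.trans hk'.symm) fun j hj =>
        ⟨hi'min j (hj.trans hi'), hk'max j (hj.trans hi')⟩
      exact linked_mono hn' hmono e3 hlk e1 hik e2
    have hstep0 : f ⟨0, by omega⟩ < f ⟨r + 1, by omega⟩ := by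
      refine hsep _ _ (by rw [Fin.lt_def]; exact Nat.succ_pos r) ?_
      refine not_linked_of_poly hn' hmono (by rw [Fin.lt_def]; exact Nat.succ_pos r) (q 0)
        (hq 0 (by omega)).1 (fun j => (h1 j (Finset.mem_univ _)).1)
        (fun j => (h1 j (Finset.mem_univ _)).2) ?_
      have := (hq 0 (by omega)).2.1
      simpa [cluster] using this
    have hstep : ∀ j, 1 ≤ j → ∀ hj : r + j + 1 < r + m,
        f ⟨r + j, by omega⟩ < f ⟨r + j + 1, hj⟩ := by
      intro j hj1 hj
      have e1 : cluster r τ δ (⟨r + j, by omega⟩ : Fin (r + m)) = τ j := by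
        unfold cluster
        rw [if_neg (by simp only; omega)]
        simp
      have e2 : cluster r τ δ (⟨r + j + 1, hj⟩ : Fin (r + m)) = τ (j + 1) := by
        unfold cluster
        rw [if_neg (by simp only; omega)]
        congr 1
        simp only
        omega
      refine hsep _ _ (by rw [Fin.lt_def]; exact Nat.lt_succ_self _) ?_
      refine not_linked_of_poly hn' hmono (by rw [Fin.lt_def]; exact Nat.lt_succ_self _) (q j)
        (hq j (by omega)).1 (fun i => ?_) (fun i => ?_) ?_
      · rw [e1]; exact (h2 j (Finset.mem_range.mpr (by omega)) hj1 i (Finset.mem_univ _)).1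
      · rw [e2]; exact (h2 j (Finset.mem_range.mpr (by omega)) hj1 i (Finset.mem_univ _)).2
      · rw [e1, e2]; exact (hq j (by omega)).2.1
    have hcount : ∀ j, 1 ≤ j → ∀ hj : r + j < r + m, j ≤ (f ⟨r + j, hj⟩ : ℕ) := by
      intro j hj1
      induction j, hj1 using Nat.le_induction with
      | base =>
        intro hj
        have := hstep0
        rw [Fin.lt_def] at this
        omega
      | succ j hj1 ih =>
        intro hj
        have e1 := ih (by omega)
        have e2 := hstep j hj1 (by omega)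
        rw [Fin.lt_def] at e2
        have e3 : (⟨r + (j + 1), hj⟩ : Fin (r + m)) = ⟨r + j + 1, by omega⟩ := Fin.ext (by
          simp only; omega)
        rw [e3]
        omega
    have := hcount (m - 1) (by omega) (by omega)
    have h4 := (f ⟨r + (m - 1), by omega⟩).isLt
    omega

/-- The values of the illumination number of cyclic polytopes with `n` vertices in dimension `d`
are exactly the integers between `d + 1` and `min n (2 d - 1)`. -/
theorem value_range {d n : ℕ} (hd : 2 ≤ d) (hn : d + 1 ≤ n) (m : ℕ) :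
    (∃ t : Fin n → ℝ, StrictMono t ∧ IsLeast {k | IlluminableBy (cyclicPolytope d t) k} m) ↔
      d + 1 ≤ m ∧ m ≤ min n (2 * d - 1) := by
  constructor
  · rintro ⟨t, ht, hmem, hlb⟩
    refine ⟨illuminable_ge (by omega) (by omega) hmem, le_min ?_ ?_⟩
    · exact hlb ((illuminableBy_iff hd hn ht n).mpr
        ⟨id, monotone_id, fun i k hik h _ => absurd h hik.ne⟩)
    · exact hlb ((illuminableBy_iff hd hn ht _).mpr (blockPartition_two_mul hd hn ht))
  · rintro ⟨h1, h2⟩
    obtain ⟨t, ht, hb, hb'⟩ := exists_config hd h1 (h2.trans (min_le_left _ _))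
      (h2.trans (min_le_right _ _))
    exact ⟨t, ht, (illuminableBy_iff hd hn ht m).mpr hb,
      fun k hk => hb' k ((illuminableBy_iff hd hn ht k).mp hk)⟩

end Pool.Agent.CyclicIllum
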